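import Mathlib

set_option autoImplicit false

/-!
Project TH (MP_594f4b_nt, Q2): basic definitions.
-/

namespace Pool.Agent.Helper73.TH

/-- `‖y‖`, the distance from the real number `y` to the nearest integer. -/
noncomputable def distInt (y : ℝ) : ℝ := |y - round y|

/-- The standard domain `Φ₀(ρ, τ) = {|x₂| ≤ |x₁|^ρ} ∪ {|x₁| ≤ |x₂|^τ}` in the plane
(for `τ = 0` one has `|x₂|^0 = 1`, also at `x₂ = 0`, so the second set is `{|x₁| ≤ 1}`). -/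
def Phi0 (ρ τ : ℝ) : Set (ℝ × ℝ) :=
  {x | |x.2| ≤ |x.1| ^ ρ} ∪ {x | |x.1| ≤ |x.2| ^ τ}

/-- `(ρ, τ)` admits exponent `s`: for all `θ₁, θ₂` with `1, θ₁, θ₂` linearly independent over `ℤ`
and for every non-degenerate linear map `L` of the plane there is `c > 0` such that infinitely
many integer points `x` of `L(Φ₀(ρ, τ))` satisfy `‖θ₁ x₁ + θ₂ x₂‖ ≤ c |x|^(-s)`,
`|x| = max(|x₁|, |x₂|)`. -/
def Admits (ρ τ s : ℝ) : Prop :=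
  ∀ θ₁ θ₂ : ℝ, LinearIndependent ℤ ![(1 : ℝ), θ₁, θ₂] →
    ∀ L : (ℝ × ℝ) ≃ₗ[ℝ] (ℝ × ℝ), ∃ c : ℝ, 0 < c ∧
      {x : ℤ × ℤ | ((x.1 : ℝ), (x.2 : ℝ)) ∈ L '' Phi0 ρ τ ∧
        distInt (θ₁ * x.1 + θ₂ * x.2) ≤ c * (max |(x.1 : ℝ)| |(x.2 : ℝ)|) ^ (-s)}.Infinite

/-- The curve describing the optimal exponent: `s = s*(ρ)` with the auxiliary parameter `β`. -/
structure Curve (ρ s β : ℝ) : Prop where
  hs1 : 1 < s
  hs2 : s ≤ 2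
  hβ0 : 0 < β
  hβ1 : β ≤ 1
  e1 : (s - 1) * β * (s * β + 1) = (s + 1) * (s ^ 2 - s - 1)
  e2 : (s - 1) * β * (ρ * (1 + s) * β - (ρ - 1)) = (ρ - 1) * s * (1 + s)

end Pool.Agent.Helper73.TH
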