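import Mathlib
import Pool.Agent.Helper73.TH.Defs

set_option autoImplicit false

/-!
Project TH (MP_594f4b_nt, Q2): definitions for the upper bound (the construction).
-/

namespace Pool.Agent.Helper73.TH

/-- a triple `(a, b, c)` of integer vectors in `ℤ³` -/
structure St where
  a0 : ℤ
  a1 : ℤ
  a2 : ℤ
  b0 : ℤ
  b1 : ℤ
  b2 : ℤ
  c0 : ℤ
  c1 : ℤ
  c2 : ℤ

/-- coordinates of the cross product `a × b` -/
def St.z0 (S : St) : ℤ := S.a1 * S.b2 - S.a2 * S.b1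
/-- coordinates of the cross product `a × b` -/
def St.z1 (S : St) : ℤ := S.a2 * S.b0 - S.a0 * S.b2
/-- coordinates of the cross product `a × b` -/
def St.z2 (S : St) : ℤ := S.a0 * S.b1 - S.a1 * S.b0

/-- determinant -/
def St.dt (S : St) : ℤ := S.z0 * S.c0 + S.z1 * S.c1 + S.z2 * S.c2

/-- Parameters of the construction. -/
structure Par where
  α : ℝ
  γ : ℝ
  κ : ℝ
  hα0 : 0 < α
  hα1 : α < 1
  hγ : 1 < γ
  hκ : 1 + α / γ + α < κ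
  hm : κ < γ + α

/-- Invariants of a state at time `t`. -/
structure Inv (P : Par) (t : ℝ) (S : St) : Prop where
  det : S.dt = 1
  cop : IsCoprime S.a1 S.b1
  b1l : Real.exp (P.α * t) ≤ (S.b1 : ℝ)
  b1u : (S.b1 : ℝ) ≤ 2 * Real.exp (P.α * t)
  b2l : Real.exp t ≤ 2 * (S.b2 : ℝ)
  b2u : (S.b2 : ℝ) ≤ 20 * Real.exp t
  zl : 0 < S.z0
  zu : (S.z0 : ℝ) ≤ 16 * Real.exp ((1 + P.α / P.γ) * t)

/-- Relation between consecutive states. -/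
structure Rel (P : Par) (t : ℝ) (S S' : St) (k : ℕ) (v0 v1 v2 : ℤ) : Prop where
  a0 : S'.a0 = S.b0
  a1 : S'.a1 = S.b1
  a2 : S'.a2 = S.b2
  nl : Real.exp ((P.γ + P.α - P.κ) * t) ≤ (Nat.fib (k + 1) : ℝ)
  nu : (Nat.fib (k + 1) : ℝ) ≤ 4 * Real.exp ((P.γ + P.α - P.κ) * t)
  z0 : S'.z0 = Nat.fib (k + 1) * v0 + Nat.fib k * S.z0
  z1 : S'.z1 = Nat.fib (k + 1) * v1 + Nat.fib k * S.z1
  z2 : S'.z2 = Nat.fib (k + 1) * v2 + Nat.fib k * S.z2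
  va : v0 * S.a0 + v1 * S.a1 + v2 * S.a2 = 1
  vb : v0 * S.b0 + v1 * S.b1 + v2 * S.b2 = 0
  zv2 : S.z0 * v1 - S.z1 * v0 = S.b2
  zv1 : S.z2 * v0 - S.z0 * v2 = S.b1
  Dl : Real.exp ((P.γ + P.α) * t) ≤ (S'.z0 : ℝ)
  Du : (S'.z0 : ℝ) ≤ 16 * Real.exp ((P.γ + P.α) * t)

/-- All the data of the construction; the state number `i` lives at time `γ ^ i * t`. -/
structure Data (P : Par) where
  t : ℝ
  ht : 1 ≤ t
  S : ℕ → St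
  k : ℕ → ℕ
  v0 : ℕ → ℤ
  v1 : ℕ → ℤ
  v2 : ℕ → ℤ
  inv : ∀ i, Inv P (P.γ ^ i * t) (S i)
  rel : ∀ i, Rel P (P.γ ^ i * t) (S i) (S (i + 1)) (k i) (v0 i) (v1 i) (v2 i)
  θ1 : ℝ
  θ2 : ℝ
  e1 : ∀ i, |((S i).z1 : ℝ) - (S i).z0 * θ1| ≤ 160 * Real.exp (-((P.κ - 1) * (P.γ ^ i * t)))
  e2 : ∀ i, |((S i).z2 : ℝ) - (S i).z0 * θ2| ≤ 160 * Real.exp (-((P.κ - 1) * (P.γ ^ i * t)))

/-- the linear form at an integer point -/
noncomputable def Data.L {P : Par} (d : Data P) (y0 y1 y2 : ℤ) : ℝ := y0 + d.θ1 * y1 + d.θ2 * y2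

/-- the sup norm of the last two coordinates -/
noncomputable def nrm (y1 y2 : ℤ) : ℝ := max |(y1 : ℝ)| |(y2 : ℝ)|

/-- membership of `(y1, y2)` in `(1/2) • Φ₀(ρ, 0)` -/
def Dom (ρ y1 y2 : ℝ) : Prop := 2 * |y2| ≤ (2 * |y1|) ^ ρ ∨ 2 * |y1| ≤ 1

/-- The inequalities between the parameters and the pair `(ρ, s)`. -/
structure Ineq (P : Par) (ρ s : ℝ) : Prop where
  hρ : 1 < ρ
  hs : 1 < s
  hρα : ρ * P.α < 1
  U1 : s < P.κ * (s - 1)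
  U2 : P.γ * P.κ < (1 + s) * (P.γ - 1) + s * P.α
  U3 : (ρ - 1) * (P.γ * P.κ - s) < (1 + s) * (1 - ρ * P.α)
  U5 : P.γ * P.κ < P.α * P.γ + s * P.α + s * P.γ
  U6 : P.α < P.γ * (1 / ρ + s - P.κ)
  U7 : 1 + P.α / P.γ < s * (P.κ - 1)
  U8 : (ρ - 1) * (P.κ - s) < s * (1 - ρ * P.α)

end Pool.Agent.Helper73.TH
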