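import Mathlib
import Pool.Agent.Helper73.TH.Defs

set_option autoImplicit false

/-!
Project TH (MP_594f4b_nt, Q2): lower bound, geometry of minimal points.
-/

namespace Pool.Agent.Helper73.TH

/-- integer vectors -/
abbrev V3 := Fin 3 → ℤ

/-- Three real functionals on `ℤ³` with the properties used for the lower bound. -/
structure Geo where
  u : V3 →+ ℝ
  v : V3 →+ ℝ
  L : V3 →+ ℝ
  K : ℝ
  hK : 1 ≤ K
  mink : ∀ a b c : ℝ, 0 < a → 0 < b → 0 < c → K < a * b * c →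
    ∃ y : V3, y ≠ 0 ∧ |u y| < a ∧ |v y| < b ∧ |L y| < c
  fin : ∀ B : ℝ, {y : V3 | |u y| ≤ B ∧ |v y| ≤ B ∧ |L y| ≤ B}.Finite
  Lne : ∀ y : V3, y ≠ 0 → L y ≠ 0
  det : ∀ y1 y2 y3 : V3,
    L y1 * (u y2 * v y3 - u y3 * v y2) - L y2 * (u y1 * v y3 - u y3 * v y1)
      + L y3 * (u y1 * v y2 - u y2 * v y1) ≠ 0 →
    1 ≤ K * |L y1 * (u y2 * v y3 - u y3 * v y2) - L y2 * (u y1 * v y3 - u y3 * v y1)
      + L y3 * (u y1 * v y2 - u y2 * v y1)|
  wedge : ∀ y1 y2 : V3, u y1 * v y2 - u y2 * v y1 = 0 →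
    K * (|L y1| * max |u y2| |v y2| + |L y2| * max |u y1| |v y1|) < 1 →
    L y1 * v y2 - L y2 * v y1 = 0

namespace Geo

variable (G : Geo)

/-- height -/
noncomputable def H (y : V3) : ℝ := max |G.u y| |G.v y|

/-- `u ∧ v` -/
noncomputable def D (y1 y2 : V3) : ℝ := G.u y1 * G.v y2 - G.u y2 * G.v y1

/-- `L ∧ v` -/
noncomputable def F (y1 y2 : V3) : ℝ := G.L y1 * G.v y2 - G.L y2 * G.v y1

/-- the determinant of `(u, v, L)` -/
noncomputable def dt (y1 y2 y3 : V3) : ℝ :=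
  G.L y1 * G.D y2 y3 - G.L y2 * G.D y1 y3 + G.L y3 * G.D y1 y2

lemma H_nonneg (y : V3) : 0 ≤ G.H y := le_trans (abs_nonneg _) (le_max_left _ _)

lemma u_le_H (y : V3) : |G.u y| ≤ G.H y := le_max_left _ _

lemma v_le_H (y : V3) : |G.v y| ≤ G.H y := le_max_right _ _

lemma L_pos {y : V3} (hy : y ≠ 0) : 0 < |G.L y| := abs_pos.mpr (G.Lne y hy)

/-- existence of the next minimal point -/
lemma exists_next (w : V3) (hw : w ≠ 0) : ∃ w' : V3, w' ≠ 0 ∧ |G.L w'| < |G.L w| ∧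
    (∀ y : V3, y ≠ 0 → |G.L y| < |G.L w| → G.H w' ≤ G.H y) ∧
    (∀ y : V3, y ≠ 0 → G.H y ≤ G.H w' → |G.L w'| ≤ |G.L y|) := by
  have hLw := G.L_pos hw
  have hK := G.hK
  obtain ⟨y0, hy0, hy1, hy2, hy3⟩ := G.mink ((G.K + 1) / |G.L w|) 1 |G.L w| (by positivity)
    one_pos hLw (by
      rw [mul_one, div_mul_cancel₀ _ hLw.ne']; linarith)
  -- the finite set of points of height at most `h` with `|L| < |L w|`
  have hfin : ∀ h : ℝ, {y : V3 | y ≠ 0 ∧ |G.L y| < |G.L w| ∧ G.H y ≤ h}.Finite := by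
    intro h
    apply (G.fin (max h |G.L w|)).subset
    rintro y ⟨_, h2, h3⟩
    exact ⟨((G.u_le_H y).trans h3).trans (le_max_left _ _),
      ((G.v_le_H y).trans h3).trans (le_max_left _ _), h2.le.trans (le_max_right _ _)⟩
  obtain ⟨y1, hy1m, hy1min⟩ := Set.exists_min_image _ G.H (hfin (G.H y0)) ⟨y0, hy0, hy3, le_rfl⟩
  obtain ⟨w', hw'm, hw'min⟩ := Set.exists_min_image _ (fun y => |G.L y|) (hfin (G.H y1))
    ⟨y1, hy1m.1, hy1m.2.1, le_rfl⟩
  have hmin1 : ∀ y : V3, y ≠ 0 → |G.L y| < |G.L w| → G.H y1 ≤ G.H y := by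
    intro y hy hyL
    rcases le_total (G.H y) (G.H y0) with h | h
    · exact hy1min y ⟨hy, hyL, h⟩
    · exact hy1m.2.2.trans h
  refine ⟨w', hw'm.1, hw'm.2.1, fun y hy hyL => hw'm.2.2.trans (hmin1 y hy hyL), ?_⟩
  intro y hy hyH
  rcases lt_or_ge |G.L y| |G.L w| with h | h
  · exact hw'min y ⟨hy, h, hyH.trans hw'm.2.2⟩
  · exact hw'm.2.1.le.trans h

/-- the sequence of minimal points -/
lemma exists_seq : ∃ w : ℕ → V3, (∀ i, w i ≠ 0) ∧ (∀ i, |G.L (w (i + 1))| < |G.L (w i)|) ∧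
    (∀ i, G.H (w i) < G.H (w (i + 1))) ∧
    (∀ i, ∀ y : V3, y ≠ 0 → G.H y < G.H (w (i + 1)) → |G.L (w i)| ≤ |G.L y|) ∧
    Filter.Tendsto (fun i => G.H (w i)) Filter.atTop Filter.atTop := by
  classical
  have hK := G.hK
  obtain ⟨y0, hy0, -⟩ := G.mink (G.K + 1) 1 1 (by positivity) one_pos one_pos (by linarith)
  let P : V3 → Prop := fun w => w ≠ 0 ∧ ∀ y : V3, y ≠ 0 → G.H y ≤ G.H w → |G.L w| ≤ |G.L y|
  have hnext : ∀ w : {w : V3 // P w}, ∃ w' : {w : V3 // P w}, |G.L w'.1| < |G.L w.1| ∧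
      (∀ y : V3, y ≠ 0 → |G.L y| < |G.L w.1| → G.H w'.1 ≤ G.H y) := by
    rintro ⟨w, hw1, hw2⟩
    obtain ⟨w', h1, h2, h3, h4⟩ := G.exists_next w hw1
    exact ⟨⟨w', h1, h4⟩, h2, h3⟩
  choose nx hnx1 hnx2 using hnext
  obtain ⟨w0, h01, h02, h03, h04⟩ := G.exists_next y0 hy0
  let f : ℕ → {w : V3 // P w} := fun i => Nat.rec ⟨w0, h01, h04⟩ (fun _ w => nx w) i
  have hf : ∀ i, f (i + 1) = nx (f i) := fun i => rfl
  have h1 : ∀ i, |G.L (f (i + 1)).1| < |G.L (f i).1| := fun i => by rw [hf]; exact hnx1 _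
  have h2 : ∀ i, G.H (f i).1 < G.H (f (i + 1)).1 := by
    intro i
    by_contra hcon
    push Not at hcon
    exact absurd ((f i).2.2 _ (f (i + 1)).2.1 hcon) (not_le.mpr (h1 i))
  have hmonoH : StrictMono (fun i => G.H (f i).1) := strictMono_nat_of_lt_succ h2
  refine ⟨fun i => (f i).1, fun i => (f i).2.1, h1, h2, ?_, ?_⟩
  · intro i y hy hyH
    by_contra hcon
    push Not at hcon
    have := hnx2 (f i) y hy hcon
    rw [← hf] at this
    linarith
  · -- heights tend to infinity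
    have hanti : ∀ i, |G.L (f i).1| ≤ |G.L (f 0).1| := by
      intro i
      induction i with
      | zero => exact le_rfl
      | succ i ih => exact (h1 i).le.trans ih
    rw [Filter.tendsto_atTop_atTop_iff_of_monotone hmonoH.monotone]
    intro B
    by_contra hcon
    push Not at hcon
    have hinj : Function.Injective (fun i => (f i).1) := by
      intro i j hij
      exact hmonoH.injective (congrArg G.H hij)
    have hfin := G.fin (max B |G.L (f 0).1|)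
    have hsub : Set.range (fun i => (f i).1) ⊆
        {y : V3 | |G.u y| ≤ max B |G.L (f 0).1| ∧ |G.v y| ≤ max B |G.L (f 0).1| ∧
          |G.L y| ≤ max B |G.L (f 0).1|} := by
      rintro y ⟨i, rfl⟩
      exact ⟨((G.u_le_H _).trans (hcon i).le).trans (le_max_left _ _),
        ((G.v_le_H _).trans (hcon i).le).trans (le_max_left _ _),
        (hanti i).trans (le_max_right _ _)⟩
    exact Set.infinite_range_of_injective hinj (hfin.subset hsub)

end Geo

end Pool.Agent.Helper73.TH
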