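import Mathlib
import Pool.Agent.Helper73.TH.LGeo

set_option autoImplicit false

/-!
Project TH (MP_594f4b_nt, Q2): lower bound, consecutive minimal points.
-/

namespace Pool.Agent.Helper73.TH

namespace Geo

variable (G : Geo)

/-- consecutive minimal points -/
structure Con (w w' : V3) : Prop where
  ne : w ≠ 0
  ne' : w' ≠ 0
  Llt : |G.L w'| < |G.L w|
  Hlt : G.H w < G.H w'
  mini : ∀ y : V3, y ≠ 0 → G.H y < G.H w' → |G.L w| ≤ |G.L y|

variable {G}

lemma Con.H_pos {w w' : V3} (h : G.Con w w') : 0 < G.H w' :=
  lt_of_le_of_lt (G.H_nonneg w) h.Hlt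

lemma Con.LX {w w' : V3} (h : G.Con w w') : |G.L w| * G.H w' ^ 2 ≤ G.K := by
  by_contra hcon
  push Not at hcon
  have hH := h.H_pos
  obtain ⟨y, hy, h1, h2, h3⟩ := G.mink (G.H w') (G.H w') |G.L w| hH hH (G.L_pos h.ne)
    (by calc G.K < |G.L w| * G.H w' ^ 2 := hcon
          _ = G.H w' * G.H w' * |G.L w| := by ring)
  exact absurd (h.mini y hy (max_lt h1 h2)) (not_le.mpr h3)

lemma map_comb (f : V3 →+ ℝ) (w w' : V3) (a b : ℤ) :
    f (a • w + b • w') = a * f w + b * f w' := by
  rw [map_add, map_zsmul, map_zsmul, zsmul_eq_mul, zsmul_eq_mul]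

/-- consecutive minimal points form a basis of the integer points of their plane -/
lemma Con.basis {w w' y : V3} (h : G.Con w w') (hD : G.D w w' ≠ 0) (hdt : G.dt w w' y = 0) :
    ∃ a b : ℤ, y = a • w + b • w' := by
  obtain ⟨p, hp⟩ : ∃ p : ℝ, p = G.D y w' / G.D w w' := ⟨_, rfl⟩
  obtain ⟨q, hq⟩ : ∃ q : ℝ, q = G.D w y / G.D w w' := ⟨_, rfl⟩
  have hpD : p * G.D w w' = G.D y w' := by rw [hp, div_mul_cancel₀ _ hD]
  have hqD : q * G.D w w' = G.D w y := by rw [hq, div_mul_cancel₀ _ hD]
  have eu : G.u y = p * G.u w + q * G.u w' := by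
    apply mul_right_cancel₀ hD
    have e : (p * G.u w + q * G.u w') * G.D w w' =
        (p * G.D w w') * G.u w + (q * G.D w w') * G.u w' := by ring
    rw [e, hpD, hqD]
    simp only [D]; ring
  have ev : G.v y = p * G.v w + q * G.v w' := by
    apply mul_right_cancel₀ hD
    have e : (p * G.v w + q * G.v w') * G.D w w' =
        (p * G.D w w') * G.v w + (q * G.D w w') * G.v w' := by ring
    rw [e, hpD, hqD]
    simp only [D]; ring
  have eL : G.L y = p * G.L w + q * G.L w' := by
    apply mul_right_cancel₀ hD
    have e : (p * G.L w + q * G.L w') * G.D w w' =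
        (p * G.D w w') * G.L w + (q * G.D w w') * G.L w' := by ring
    rw [e, hpD, hqD]
    have : G.L w * G.D w' y - G.L w' * G.D w y + G.L y * G.D w w' = 0 := hdt
    have e : G.D w' y = - G.D y w' := by simp only [D]; ring
    rw [e] at this
    linarith
  refine ⟨round p, round q, ?_⟩
  by_contra hne
  set z : V3 := y - ((round p : ℤ) • w + (round q : ℤ) • w') with hz
  have hz0 : z ≠ 0 := sub_ne_zero.mpr hne
  have hp' : |p - round p| ≤ 1 / 2 := abs_sub_round p
  have hq' : |q - round q| ≤ 1 / 2 := abs_sub_round q
  have gen : ∀ f : V3 →+ ℝ, f y = p * f w + q * f w' →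
      |f z| ≤ 1 / 2 * |f w| + 1 / 2 * |f w'| := by
    intro f hf
    have e : f z = (p - round p) * f w + (q - round q) * f w' := by
      rw [hz, map_sub, map_comb, hf]; ring
    rw [e]
    calc _ ≤ |(p - round p) * f w| + |(q - round q) * f w'| := abs_add_le _ _
      _ = |p - round p| * |f w| + |q - round q| * |f w'| := by rw [abs_mul, abs_mul]
      _ ≤ _ := by gcongr
  have g1 := gen G.u eu
  have g2 := gen G.v ev
  have g3 := gen G.L eL
  have hH : G.H z < G.H w' := by
    apply max_lt
    · have := G.u_le_H w
      have := G.u_le_H w'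
      have := h.Hlt
      linarith
    · have := G.v_le_H w
      have := G.v_le_H w'
      have := h.Hlt
      linarith
  have := h.mini z hz0 hH
  have := h.Llt
  have := G.L_pos h.ne
  linarith

lemma D_comb (w w' : V3) (a b : ℤ) : G.D w' (a • w + b • w') = - a * G.D w w' := by
  simp only [D, map_comb]; ring

lemma F_comb (w w' : V3) (a b : ℤ) : G.F w' (a • w + b • w') = - a * G.F w w' := by
  simp only [F, map_comb]; ring

/-- constancy of `|D|` and `|F|` along a plane -/
lemma Con.const {w w' w'' : V3} (h : G.Con w w') (h' : G.Con w' w'') (hD : G.D w w' ≠ 0)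
    (hdt : G.dt w w' w'' = 0) : |G.D w' w''| = |G.D w w'| ∧ |G.F w' w''| = |G.F w w'| := by
  obtain ⟨a, b, hab⟩ := h.basis hD hdt
  have hDw : G.D w' w'' = - a * G.D w w' := by rw [hab, D_comb]
  have hFw : G.F w' w'' = - a * G.F w w' := by rw [hab, F_comb]
  have ha0 : a ≠ 0 := by
    rintro rfl
    rw [zero_smul, zero_add] at hab
    have hL : |G.L w''| = |(b : ℝ)| * |G.L w'| := by
      rw [hab, map_zsmul, zsmul_eq_mul, abs_mul]
    have hb0 : b ≠ 0 := by
      rintro rfl
      rw [zero_smul] at hab
      exact h'.ne' hab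
    have hb1 : (1 : ℝ) ≤ |(b : ℝ)| := by
      have : 1 ≤ |b| := Int.one_le_abs hb0
      exact_mod_cast this
    have h1 := h'.Llt
    have h2 := G.L_pos h'.ne
    nlinarith
  have haR : (a : ℝ) ≠ 0 := by exact_mod_cast ha0
  have hD' : G.D w' w'' ≠ 0 := by
    rw [hDw]
    exact mul_ne_zero (neg_ne_zero.mpr haR) hD
  have hdt' : G.dt w' w'' w = 0 := by
    rw [← hdt]; simp only [dt, D]; ring
  obtain ⟨c, d, hcd⟩ := h'.basis hD' hdt'
  have key : G.D w w' = d * a * G.D w w' := by
    have e1 : G.D w w' = - d * G.D w' w'' := by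
      have : G.D w w' = G.D (c • w' + d • w'') w' := by rw [← hcd]
      rw [this]
      simp only [D, map_comb]; ring
    rw [hDw] at e1
    linarith
  have hda : (d * a : ℝ) = 1 := by
    apply mul_right_cancel₀ hD
    linarith
  have hdaZ : d * a = 1 := by exact_mod_cast hda
  have habs : |a| = 1 := Int.isUnit_iff_abs_eq.mp (IsUnit.of_mul_eq_one d (by rw [mul_comm]; exact hdaZ))
  have habsR : |(a : ℝ)| = 1 := by exact_mod_cast habs
  constructor
  · rw [hDw, abs_mul, abs_neg, habsR, one_mul]
  · rw [hFw, abs_mul, abs_neg, habsR, one_mul]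

/-- the sign property -/
lemma Con.sign {w w' : V3} (h : G.Con w w') (hv : |G.v w| < |G.v w'|) (hv0 : 0 < |G.v w|)
    (hH' : G.H w' = |G.v w'|) (hu : |G.u w| + |G.u w'| < |G.v w'|) :
    |G.L w| * |G.v w'| ≤ |G.F w w'| ∧ |G.F w w'| ≤ 2 * (|G.L w| * |G.v w'|) := by
  have hL0 := G.L_pos h.ne
  have hL1 := G.L_pos h.ne'
  have hLlt := h.Llt
  constructor
  · -- it suffices to show that the product of the signs is nonpositive
    have key : (G.L w * G.L w') * (G.v w * G.v w') ≤ 0 := by
      by_contra hcon
      push Not at hcon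
      -- choose the sign
      rcases lt_or_ge 0 (G.v w * G.v w') with hvv | hvv
      · have hLL : 0 < G.L w * G.L w' := by
          by_contra hneg
          push Not at hneg
          nlinarith
        have hz0 : w' - w ≠ 0 := by
          intro h0
          rw [sub_eq_zero] at h0
          have := h.Hlt
          rw [h0] at this
          exact lt_irrefl _ this
        have hHz : G.H (w' - w) < G.H w' := by
          rw [hH']
          apply max_lt
          · rw [map_sub]
            calc |G.u w' - G.u w| ≤ |G.u w'| + |G.u w| := abs_sub _ _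
              _ < _ := by linarith
          · rw [map_sub]
            have : |G.v w' - G.v w| = |G.v w'| - |G.v w| := by
              rcases pos_and_pos_or_neg_and_neg_of_mul_pos hvv with ⟨h1, h2⟩ | ⟨h1, h2⟩
              · rw [abs_of_pos h1, abs_of_pos h2] at hv ⊢
                rw [abs_of_pos (by linarith)]
              · rw [abs_of_neg h1, abs_of_neg h2] at hv ⊢
                rw [abs_of_neg (by linarith)]
                ring
            linarith
        have h1 := h.mini _ hz0 hHz
        rw [map_sub] at h1
        have : |G.L w' - G.L w| = |G.L w| - |G.L w'| := by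
          rcases pos_and_pos_or_neg_and_neg_of_mul_pos hLL with ⟨h1, h2⟩ | ⟨h1, h2⟩
          · rw [abs_of_pos h1, abs_of_pos h2] at hLlt ⊢
            rw [abs_of_neg (by linarith)]
            ring
          · rw [abs_of_neg h1, abs_of_neg h2] at hLlt ⊢
            rw [abs_of_pos (by linarith)]
            ring
        linarith
      · have hvv' : G.v w * G.v w' < 0 := by
          rcases lt_or_eq_of_le hvv with h1 | h1
          · exact h1
          · rw [h1, mul_zero] at hcon
            exact absurd hcon (lt_irrefl _)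
        have hLL : G.L w * G.L w' < 0 := by
          by_contra hneg
          push Not at hneg
          nlinarith
        have hz0 : w' + w ≠ 0 := by
          intro h0
          have e : w' = - w := eq_neg_of_add_eq_zero_left h0
          have := h.Llt
          rw [e, map_neg, abs_neg] at this
          exact lt_irrefl _ this
        have hHz : G.H (w' + w) < G.H w' := by
          rw [hH']
          apply max_lt
          · rw [map_add]
            calc |G.u w' + G.u w| ≤ |G.u w'| + |G.u w| := abs_add_le _ _
              _ < _ := by linarith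
          · rw [map_add]
            have : |G.v w' + G.v w| = |G.v w'| - |G.v w| := by
              rcases mul_neg_iff.mp hvv' with ⟨h1, h2⟩ | ⟨h1, h2⟩
              · rw [abs_of_pos h1, abs_of_neg h2] at hv ⊢
                rw [abs_of_neg (by linarith)]
                ring
              · rw [abs_of_neg h1, abs_of_pos h2] at hv ⊢
                rw [abs_of_pos (by linarith)]
                ring
            linarith
        have h1 := h.mini _ hz0 hHz
        rw [map_add] at h1
        have : |G.L w' + G.L w| = |G.L w| - |G.L w'| := by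
          rcases mul_neg_iff.mp hLL with ⟨h1, h2⟩ | ⟨h1, h2⟩
          · rw [abs_of_pos h1, abs_of_neg h2] at hLlt ⊢
            rw [abs_of_pos (by linarith)]
            ring
          · rw [abs_of_neg h1, abs_of_pos h2] at hLlt ⊢
            rw [abs_of_neg (by linarith)]
            ring
        linarith
    have hsq : (|G.L w| * |G.v w'|)^2 ≤ |G.F w w'|^2 := by
      rw [← abs_mul, sq_abs, sq_abs, F]
      nlinarith [sq_nonneg (G.L w' * G.v w)]
    exact le_of_sq_le_sq hsq (abs_nonneg _) |>.trans le_rfl
  · calc |G.F w w'| ≤ |G.L w * G.v w'| + |G.L w' * G.v w| := by rw [F]; exact abs_sub _ _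
      _ = |G.L w| * |G.v w'| + |G.L w'| * |G.v w| := by rw [abs_mul, abs_mul]
      _ ≤ |G.L w| * |G.v w'| + |G.L w| * |G.v w'| := by gcongr
      _ = _ := by ring

end Geo

end Pool.Agent.Helper73.TH
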