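import Mathlib
import Pool.Agent.Helper73.TH.LPair

set_option autoImplicit false

/-!
Project TH (MP_594f4b_nt, Q2): lower bound, the constraints.
-/

namespace Pool.Agent.Helper73.TH

open Real

/-- the exponent `s` fails for the domain with parameter `ρ` -/
structure Fail (G : Geo) (ρ s c0 : ℝ) : Prop where
  hρ : 1 < ρ
  hs1 : 1 < s
  hs2 : s < 2
  hc0 : 0 < c0
  fail : ∀ y : V3, y ≠ 0 → (|G.v y| ≤ |G.u y| ^ ρ ∨ |G.u y| ≤ 1) →
    c0 * (max 1 (G.H y)) ^ (-s) ≤ |G.L y|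

/-- an excluded point -/
structure Exc (G : Geo) (ρ : ℝ) (w : V3) : Prop where
  u1 : 1 < |G.u w|
  uv : |G.u w| ^ ρ < |G.v w|

variable {G : Geo} {ρ s c0 : ℝ}

lemma Exc.ult {w : V3} (h : Exc G ρ w) (hρ : 1 < ρ) : |G.u w| < |G.v w| := by
  refine lt_of_le_of_lt ?_ h.uv
  calc |G.u w| = |G.u w| ^ (1 : ℝ) := (rpow_one _).symm
    _ ≤ |G.u w| ^ ρ := rpow_le_rpow_of_exponent_le h.u1.le hρ.le

lemma Exc.H_eq {w : V3} (h : Exc G ρ w) (hρ : 1 < ρ) : G.H w = |G.v w| :=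
  max_eq_right (h.ult hρ).le

lemma Exc.v1 {w : V3} (h : Exc G ρ w) (hρ : 1 < ρ) : 1 < |G.v w| := h.u1.trans (h.ult hρ)

/-- `ρ log |u w| < log |v w|` -/
lemma Exc.logA {w : V3} (h : Exc G ρ w) : ρ * log |G.u w| < log |G.v w| := by
  have h0 : 0 < |G.u w| := lt_trans one_pos h.u1
  rw [← log_rpow h0]
  exact log_lt_log (rpow_pos_of_pos h0 _) h.uv

lemma Exc.A0 {w : V3} (h : Exc G ρ w) : 0 < log |G.u w| := log_pos h.u1

/-- `|u w| ≤ |v w|^(1/ρ)` -/
lemma Exc.u_le {w : V3} (h : Exc G ρ w) (hρ : 1 < ρ) : |G.u w| ≤ |G.v w| ^ (1 / ρ) := by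
  have h0 : 0 < |G.u w| := lt_trans one_pos h.u1
  calc |G.u w| = (|G.u w| ^ ρ) ^ (1 / ρ) := by
        rw [← rpow_mul h0.le, mul_one_div_cancel (by linarith), rpow_one]
    _ ≤ |G.v w| ^ (1 / ρ) := rpow_le_rpow (rpow_nonneg h0.le _) h.uv.le (by positivity)

/-- minimal points are eventually excluded -/
lemma Fail.excl (h : Fail G ρ s c0) : ∃ B : ℝ, ∀ w w' : V3, G.Con w w' → B ≤ G.H w →
    Exc G ρ w := by
  have hs2 := h.hs2
  have hc0 := h.hc0
  have ht : Filter.Tendsto (fun x : ℝ => x ^ (2 - s)) Filter.atTop Filter.atTop :=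
    tendsto_rpow_atTop (by linarith)
  obtain ⟨B, hB⟩ := Filter.eventually_atTop.mp (ht.eventually_gt_atTop (G.K / c0))
  refine ⟨max 1 B, fun w w' hc hBw => ?_⟩
  have hH1 : 1 ≤ G.H w := (le_max_left _ _).trans hBw
  have hpos : 0 < G.H w := by linarith
  by_contra hcon
  have hdom : |G.v w| ≤ |G.u w| ^ ρ ∨ |G.u w| ≤ 1 := by
    by_contra hd
    push Not at hd
    exact hcon ⟨hd.2, hd.1⟩
  have h1 := h.fail w hc.ne hdom
  rw [max_eq_right hH1] at h1
  have h2 := hc.LX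
  have h3 : |G.L w| * G.H w ^ 2 ≤ G.K := by
    refine le_trans ?_ h2
    have := hc.Hlt
    gcongr
  have h4 : c0 * G.H w ^ (2 - s) ≤ G.K := by
    calc c0 * G.H w ^ (2 - s) = (c0 * G.H w ^ (-s)) * G.H w ^ 2 := by
          rw [show (2 : ℝ) - s = -s + (2 : ℕ) by push_cast; ring, rpow_add hpos, rpow_natCast]
          ring
      _ ≤ |G.L w| * G.H w ^ 2 := by gcongr
      _ ≤ G.K := h3
  have h5 := hB (G.H w) ((le_max_right _ _).trans hBw)
  rw [div_lt_iff₀ hc0] at h5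
  linarith

/-- constraint 1 -/
lemma Fail.c1 (h : Fail G ρ s c0) {w w' : V3} (hc : G.Con w w') (he : Exc G ρ w') :
    log |G.v w'| ≤ (s - 1) * (-log (|G.L w| * |G.v w'|)) + (s * log (G.K + 1) - log c0) := by
  have hρ := h.hρ
  have hK := G.hK
  have hL := G.L_pos hc.ne
  have hv1 := he.v1 hρ
  have hv0 : 0 < |G.v w'| := by linarith
  have hHe := he.H_eq hρ
  set E := |G.L w| * |G.v w'| with hE
  have hEpos : 0 < E := mul_pos hL hv0
  obtain ⟨y, hy, hyu, hyv, hyL⟩ := G.mink ((G.K + 1) / E) |G.v w'| |G.L w| (by positivity) hv0 hL (by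
    have : (G.K + 1) / E * |G.v w'| * |G.L w| = G.K + 1 := by
      rw [hE]; field_simp
    rw [this]; linarith)
  have hHy : G.H w' ≤ G.H y := by
    by_contra hcon
    push Not at hcon
    exact absurd (hc.mini y hy hcon) (not_le.mpr hyL)
  rw [hHe] at hHy
  have hHu : G.H y = |G.u y| := by
    apply max_eq_left
    rcases le_total |G.v y| |G.u y| with h1 | h1
    · exact h1
    · exfalso
      have : G.H y = |G.v y| := max_eq_right h1
      linarith
  have hu1 : 1 ≤ |G.u y| := by rw [← hHu]; linarith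
  have hdom : |G.v y| ≤ |G.u y| ^ ρ ∨ |G.u y| ≤ 1 := by
    left
    calc |G.v y| ≤ |G.u y| := by rw [← hHu]; exact G.v_le_H y
      _ = |G.u y| ^ (1 : ℝ) := (rpow_one _).symm
      _ ≤ |G.u y| ^ ρ := rpow_le_rpow_of_exponent_le hu1 hρ.le
  have h1 := h.fail y hy hdom
  rw [max_eq_right (by rw [hHu]; exact hu1), hHu] at h1
  have h2 : c0 * ((G.K + 1) / E) ^ (-s) < |G.L w| := by
    refine lt_of_le_of_lt ?_ hyL
    refine le_trans ?_ h1
    apply mul_le_mul_of_nonneg_left _ h.hc0.le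
    apply rpow_le_rpow_of_nonpos (by linarith) hyu.le
    have := h.hs1
    linarith
  have h3 := log_lt_log (mul_pos h.hc0 (rpow_pos_of_pos (by positivity) _)) h2
  rw [log_mul h.hc0.ne' (rpow_pos_of_pos (by positivity) _).ne', log_rpow (by positivity),
    log_div (by linarith) hEpos.ne'] at h3
  have h4 : log E = log |G.L w| + log |G.v w'| := log_mul hL.ne' hv0.ne'
  linarith

/-- constraint 3 -/
lemma Fail.c3 (h : Fail G ρ s c0) {w : V3} (hw : w ≠ 0) (he : Exc G ρ w) :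
    (ρ - 1) * (-log |G.L w|) ≤ (s * ρ + 1) * log |G.v w| - (1 + s) * ρ * log |G.u w|
      + (ρ - 1) * ((1 + s) * log 2 - log c0) := by
  have hρ := h.hρ
  have hs1 := h.hs1
  have hL := G.L_pos hw
  have hv1 := he.v1 hρ
  have hu1 := he.u1
  have hv0 : 0 < |G.v w| := by linarith
  have hu0 : 0 < |G.u w| := by linarith
  have hρ1 : 0 < ρ - 1 := by linarith
  set Q := (|G.v w| / |G.u w| ^ ρ) ^ (1 / (ρ - 1)) with hQ
  have hup : 0 < |G.u w| ^ ρ := rpow_pos_of_pos hu0 _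
  have hbase : 1 < |G.v w| / |G.u w| ^ ρ := by
    rw [one_lt_div hup]; exact he.uv
  have hQ1 : 1 ≤ Q := one_le_rpow hbase.le (by positivity)
  have hQpow : Q ^ (ρ - 1) = |G.v w| / |G.u w| ^ ρ := by
    rw [hQ, ← rpow_mul (by positivity), one_div_mul_cancel hρ1.ne', rpow_one]
  obtain ⟨k, hk⟩ : ∃ k : ℕ, k = ⌈Q⌉₊ := ⟨_, rfl⟩
  have hkQ : Q ≤ k := by rw [hk]; exact Nat.le_ceil Q
  have hk2 : (k : ℝ) ≤ 2 * Q := by
    have : (k : ℝ) < Q + 1 := by rw [hk]; exact Nat.ceil_lt_add_one (by linarith)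
    linarith
  have hk1 : (1 : ℝ) ≤ k := hQ1.trans hkQ
  have hk0 : (0 : ℝ) < k := by linarith
  have hkne : k ≠ 0 := by
    rintro rfl
    norm_num at hk0
  set y : V3 := (k : ℤ) • w with hy
  have gen : ∀ f : V3 →+ ℝ, f y = k * f w := by
    intro f
    rw [hy, map_zsmul, zsmul_eq_mul]
    push_cast
    ring
  have hy0 : y ≠ 0 := by
    intro h0
    rcases smul_eq_zero.mp h0 with h1 | h1
    · exact hkne (by exact_mod_cast h1)
    · exact hw h1
  have huy : |G.u y| = k * |G.u w| := by rw [gen, abs_mul, abs_of_pos hk0]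
  have hvy : |G.v y| = k * |G.v w| := by rw [gen, abs_mul, abs_of_pos hk0]
  have hLy : |G.L y| = k * |G.L w| := by rw [gen, abs_mul, abs_of_pos hk0]
  have hHy : G.H y = k * |G.v w| := by
    have : G.H y = max |G.u y| |G.v y| := rfl
    rw [this, huy, hvy]
    apply max_eq_right
    have := he.ult hρ
    gcongr
  have hdom : |G.v y| ≤ |G.u y| ^ ρ ∨ |G.u y| ≤ 1 := by
    left
    rw [huy, hvy, mul_rpow hk0.le hu0.le]
    have e : (k : ℝ) ^ ρ = k * (k : ℝ) ^ (ρ - 1) := by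
      rw [rpow_sub_one hk0.ne']; field_simp
    have h1 : |G.v w| / |G.u w| ^ ρ ≤ (k : ℝ) ^ (ρ - 1) := by
      rw [← hQpow]; exact rpow_le_rpow (by linarith) hkQ hρ1.le
    rw [div_le_iff₀ hup] at h1
    calc (k : ℝ) * |G.v w| ≤ k * ((k : ℝ) ^ (ρ - 1) * |G.u w| ^ ρ) := by gcongr
      _ = (k : ℝ) ^ ρ * |G.u w| ^ ρ := by rw [e]; ring
  have h1 := h.fail y hy0 hdom
  rw [hHy, hLy, max_eq_right (by nlinarith)] at h1
  have h2 := log_le_log (mul_pos h.hc0 (rpow_pos_of_pos (by positivity) _)) h1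
  rw [log_mul h.hc0.ne' (rpow_pos_of_pos (by positivity) _).ne', log_rpow (by positivity),
    log_mul hk0.ne' hv0.ne', log_mul hk0.ne' hL.ne'] at h2
  have h3 : log k ≤ log 2 + (log |G.v w| - ρ * log |G.u w|) / (ρ - 1) := by
    calc log k ≤ log (2 * Q) := log_le_log hk0 hk2
      _ = log 2 + log Q := log_mul (by norm_num) (by positivity)
      _ = _ := by
        rw [hQ, log_rpow (by positivity), log_div hv0.ne' hup.ne', log_rpow hu0]
        ring
  have h4 : (ρ - 1) * log k ≤ (ρ - 1) * log 2 + (log |G.v w| - ρ * log |G.u w|) := by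
    have := mul_le_mul_of_nonneg_left h3 hρ1.le
    rw [mul_add, mul_div_cancel₀ _ hρ1.ne'] at this
    exact this
  have h5 := mul_le_mul_of_nonneg_left h2 hρ1.le
  have h6 := mul_le_mul_of_nonneg_left h4 (by linarith : (0:ℝ) ≤ 1 + s)
  nlinarith

end Pool.Agent.Helper73.TH
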