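import Mathlib
import Pool.Agent.Helper73.TH.LCons
import Pool.Agent.Helper71.TH.P1

set_option autoImplicit false

/-!
Project TH (MP_594f4b_nt, Q2): lower bound, the constraints at the start of a plane.
-/

namespace Pool.Agent.Helper73.TH

open Real

variable {G : Geo} {ρ s c0 : ℝ}

/-- a power with positive exponent dominates a constant -/
lemma exists_big (δ C : ℝ) (hδ : 0 < δ) : ∃ B : ℝ, 1 ≤ B ∧ ∀ x : ℝ, B ≤ x → C ≤ x ^ δ := by
  obtain ⟨B, hB⟩ := Filter.eventually_atTop.mp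
    ((tendsto_rpow_atTop hδ).eventually_ge_atTop C)
  exact ⟨max 1 B, le_max_left _ _, fun x hx => hB x ((le_max_right _ _).trans hx)⟩

/-- at the start of a plane the covolume is large -/
lemma start_D (hρ : 1 < ρ) : ∃ B : ℝ, 1 ≤ B ∧ ∀ w0 w w' : V3, G.Con w0 w → G.Con w w' →
    Exc G ρ w0 → Exc G ρ w → Exc G ρ w' → B ≤ |G.v w| → G.dt w0 w w' ≠ 0 →
    |G.v w| ^ 2 ≤ 2 * G.K ^ 2 * |G.D w w'| := by
  have hK := G.hK
  have hδ : 0 < 1 - 1 / ρ := by
    rw [sub_pos, div_lt_one (by linarith)]; exact hρ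
  obtain ⟨B, hB1, hB⟩ := exists_big (1 - 1 / ρ) (8 * G.K ^ 2) hδ
  refine ⟨B, hB1, fun w0 w w' hc0 hc he0 he he' hBw hdt => ?_⟩
  have hv0 : 0 < |G.v w0| := by have := he0.v1 hρ; linarith
  have hv : 0 < |G.v w| := by have := he.v1 hρ; linarith
  have hv' : 0 < |G.v w'| := by have := he'.v1 hρ; linarith
  have hlt0 : |G.v w0| < |G.v w| := by
    rw [← he0.H_eq hρ, ← he.H_eq hρ]; exact hc0.Hlt
  have hlt : |G.v w| < |G.v w'| := by
    rw [← he.H_eq hρ, ← he'.H_eq hρ]; exact hc.Hlt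
  have hL0 := G.L_pos hc0.ne
  have hL := G.L_pos hc.ne
  have hL' := G.L_pos hc.ne'
  have hLX0 := hc0.LX
  have hLX := hc.LX
  rw [he.H_eq hρ] at hLX0
  rw [he'.H_eq hρ] at hLX
  -- the two small terms
  have hdet : 1 ≤ G.K * |G.dt w0 w w'| := G.det w0 w w' hdt
  have small : ∀ (X l : ℝ), B ≤ X → 0 ≤ l → l * X ^ 2 ≤ G.K →
      l * (2 * (X ^ (1 / ρ) * X)) ≤ 1 / (4 * G.K) := by
    intro X l hX hl hlX
    have hXpos : 0 < X := by linarith
    have h1 := hB X hX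
    have e : X = X ^ (1 - 1 / ρ) * X ^ (1 / ρ) := by
      rw [← rpow_add hXpos]; norm_num
    have h2 : 8 * G.K ^ 2 * X ^ (1 / ρ) ≤ X := by
      calc 8 * G.K ^ 2 * X ^ (1 / ρ) ≤ X ^ (1 - 1 / ρ) * X ^ (1 / ρ) := by gcongr
        _ = X := e.symm
    rw [le_div_iff₀ (by positivity)]
    have h3 : l * X * (8 * G.K ^ 2 * X ^ (1 / ρ)) ≤ l * X * X := by gcongr
    have h4 : G.K * (l * (2 * (X ^ (1 / ρ) * X)) * (4 * G.K)) ≤ G.K * 1 := by
      calc G.K * (l * (2 * (X ^ (1 / ρ) * X)) * (4 * G.K)) = l * X * (8 * G.K ^ 2 * X ^ (1 / ρ)) := by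
            ring
        _ ≤ l * X * X := h3
        _ = l * X ^ 2 := by ring
        _ ≤ G.K * 1 := by linarith
    exact le_of_mul_le_mul_left h4 (by linarith)
  have hr0 : |G.u w0| ≤ |G.v w0| ^ (1 / ρ) := he0.u_le hρ
  have hr : |G.u w| ≤ |G.v w| ^ (1 / ρ) := he.u_le hρ
  have hr' : |G.u w'| ≤ |G.v w'| ^ (1 / ρ) := he'.u_le hρ
  have hρinv : 0 ≤ 1 / ρ := by positivity
  have hD1 : |G.D w0 w'| ≤ 2 * (|G.v w'| ^ (1 / ρ) * |G.v w'|) := by
    calc |G.D w0 w'| ≤ |G.u w0 * G.v w'| + |G.u w' * G.v w0| := abs_sub _ _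
      _ = |G.u w0| * |G.v w'| + |G.u w'| * |G.v w0| := by rw [abs_mul, abs_mul]
      _ ≤ |G.v w'| ^ (1 / ρ) * |G.v w'| + |G.v w'| ^ (1 / ρ) * |G.v w'| := by
        have e1 := hr0.trans (rpow_le_rpow hv0.le (hlt0.trans hlt).le hρinv)
        have e2 := (hlt0.trans hlt).le
        apply add_le_add
        · exact mul_le_mul_of_nonneg_right e1 hv'.le
        · exact mul_le_mul hr' e2 (abs_nonneg _) (by positivity)
      _ = _ := by ring
  have hD2 : |G.D w0 w| ≤ 2 * (|G.v w| ^ (1 / ρ) * |G.v w|) := by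
    calc |G.D w0 w| ≤ |G.u w0 * G.v w| + |G.u w * G.v w0| := abs_sub _ _
      _ = |G.u w0| * |G.v w| + |G.u w| * |G.v w0| := by rw [abs_mul, abs_mul]
      _ ≤ |G.v w| ^ (1 / ρ) * |G.v w| + |G.v w| ^ (1 / ρ) * |G.v w| := by
        gcongr
        exact hr0.trans (rpow_le_rpow hv0.le hlt0.le hρinv)
      _ = _ := by ring
  have t1 : |G.L w| * |G.D w0 w'| ≤ 1 / (4 * G.K) :=
    (mul_le_mul_of_nonneg_left hD1 hL.le).trans (small _ _ (hBw.trans hlt.le) hL.le hLX)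
  have t2 : |G.L w'| * |G.D w0 w| ≤ 1 / (4 * G.K) := by
    refine (mul_le_mul_of_nonneg_left hD2 hL'.le).trans (small _ _ hBw hL'.le ?_)
    calc |G.L w'| * |G.v w| ^ 2 ≤ |G.L w| * |G.v w'| ^ 2 := by
          have := hc.Llt
          gcongr
      _ ≤ G.K := hLX
  have hdtle : |G.dt w0 w w'| ≤ |G.L w0| * |G.D w w'| + |G.L w| * |G.D w0 w'|
      + |G.L w'| * |G.D w0 w| := by
    rw [← abs_mul, ← abs_mul, ← abs_mul]
    calc |G.dt w0 w w'| ≤ |G.L w0 * G.D w w' - G.L w * G.D w0 w'| + |G.L w' * G.D w0 w| :=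
          abs_add_le _ _
      _ ≤ _ := by gcongr; exact abs_sub _ _
  have hKpos : 0 < G.K := by linarith
  have hq : G.K * (1 / (4 * G.K)) = 1 / 4 := by field_simp
  have h5 : 1 / 2 ≤ G.K * (|G.L w0| * |G.D w w'|) := by
    have := mul_le_mul_of_nonneg_left hdtle hKpos.le
    have := mul_le_mul_of_nonneg_left t1 hKpos.le
    have := mul_le_mul_of_nonneg_left t2 hKpos.le
    nlinarith
  have hDn : 0 ≤ |G.D w w'| := abs_nonneg _
  calc |G.v w| ^ 2 = 2 * (|G.v w| ^ 2 * (1 / 2)) := by ring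
    _ ≤ 2 * (|G.v w| ^ 2 * (G.K * (|G.L w0| * |G.D w w'|))) := by gcongr
    _ = 2 * G.K * |G.D w w'| * (|G.L w0| * |G.v w| ^ 2) := by ring
    _ ≤ 2 * G.K * |G.D w w'| * G.K := by gcongr
    _ = _ := by ring

/-- constraint 2 -/
lemma Fail.c2 (h : Fail G ρ s c0) : ∃ B : ℝ, 1 ≤ B ∧ ∀ w w' : V3, G.Con w w' →
    Exc G ρ w → Exc G ρ w' → B ≤ |G.v w| → |G.v w| ^ 2 ≤ 2 * G.K ^ 2 * |G.D w w'| →
    -log (|G.L w| * |G.v w'|) ≤ s * (log |G.D w w'| - log |G.v w|) - log |G.v w|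
      + (s * log (2 * G.K ^ 2) + log 3 - log c0) := by
  have hK := G.hK
  have hρ := h.hρ
  have hs1 := h.hs1
  have hKpos : 0 < G.K := by linarith
  have hδ : 0 < 1 - 1 / ρ := by
    rw [sub_pos, div_lt_one (by linarith)]; exact hρ
  obtain ⟨B1, hB11, hB1⟩ := exists_big (1 - 1 / ρ) (2 * G.K ^ 2) hδ
  obtain ⟨B2, hB21, hB2⟩ := exists_big (ρ - 1) ((4 * G.K ^ 2) ^ ρ) (by linarith)
  refine ⟨max (max B1 B2) (4 * G.K ^ 2), (hB11.trans (le_max_left _ _)).trans (le_max_left _ _),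
    fun w w' hc he he' hBw hD => ?_⟩
  have hBw1 : B1 ≤ |G.v w| := ((le_max_left _ _).trans (le_max_left _ _)).trans hBw
  have hBw2 : B2 ≤ |G.v w| := ((le_max_right _ _).trans (le_max_left _ _)).trans hBw
  have hBw3 : 4 * G.K ^ 2 ≤ |G.v w| := (le_max_right _ _).trans hBw
  have hv1 := he.v1 hρ
  have hv : 0 < |G.v w| := by linarith
  have hv' : 0 < |G.v w'| := by have := he'.v1 hρ; linarith
  have hlt : |G.v w| < |G.v w'| := by
    rw [← he.H_eq hρ, ← he'.H_eq hρ]; exact hc.Hlt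
  have hL := G.L_pos hc.ne
  have hL' := G.L_pos hc.ne'
  have hvne : G.v w ≠ 0 := abs_pos.mp hv
  set X := |G.v w| with hX
  set Dd := |G.D w w'| with hDd
  have hDpos : 0 < Dd := by
    by_contra hcon
    have : Dd = 0 := le_antisymm (not_lt.mp hcon) (abs_nonneg _)
    rw [this] at hD
    nlinarith
  -- the point
  obtain ⟨p, hp⟩ : ∃ p : ℤ, p = round (G.v w' / G.v w) := ⟨_, rfl⟩
  have hpr : |G.v w' / G.v w - p| ≤ 1 / 2 := by rw [hp]; exact abs_sub_round _
  set y : V3 := (-p) • w + (1 : ℤ) • w' with hy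
  have gen : ∀ f : V3 →+ ℝ, f y = f w' - p * f w := by
    intro f
    rw [hy, Geo.map_comb]
    push_cast
    ring
  have hvy : |G.v y| ≤ X / 2 := by
    have e : G.v y = (G.v w' / G.v w - p) * G.v w := by
      rw [gen]; field_simp
    rw [e, abs_mul]
    calc _ ≤ 1 / 2 * X := by gcongr
      _ = X / 2 := by ring
  have hDy : G.u w * G.v y - G.u y * G.v w = G.D w w' := by
    rw [gen, gen]; simp only [Geo.D]; ring
  have hur : |G.u w| * X ≤ Dd := by
    have h1 := he.u_le hρ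
    have h2 := hB1 X hBw1
    have e : X = X ^ (1 - 1 / ρ) * X ^ (1 / ρ) := by
      rw [← rpow_add hv]; norm_num
    have h3 : 2 * G.K ^ 2 * X ^ (1 / ρ) ≤ X := by
      calc 2 * G.K ^ 2 * X ^ (1 / ρ) ≤ X ^ (1 - 1 / ρ) * X ^ (1 / ρ) := by gcongr
        _ = X := e.symm
    have h4 : 2 * G.K ^ 2 * (|G.u w| * X) ≤ 2 * G.K ^ 2 * Dd := by
      calc 2 * G.K ^ 2 * (|G.u w| * X) ≤ 2 * G.K ^ 2 * (X ^ (1 / ρ) * X) := by gcongr
        _ = (2 * G.K ^ 2 * X ^ (1 / ρ)) * X := by ring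
        _ ≤ X * X := by gcongr
        _ = X ^ 2 := by ring
        _ ≤ _ := hD
    exact le_of_mul_le_mul_left h4 (by positivity)
  have huw0 : 0 ≤ |G.u w| := abs_nonneg _
  have huvy : |G.u w| * |G.v y| ≤ Dd / 2 := by
    calc |G.u w| * |G.v y| ≤ |G.u w| * (X / 2) := by gcongr
      _ = |G.u w| * X / 2 := by ring
      _ ≤ Dd / 2 := by linarith
  have hlow : Dd / 2 ≤ |G.u y| * X := by
    have h1 : Dd ≤ |G.u w| * |G.v y| + |G.u y| * X := by
      rw [hDd, ← hDy, hX, ← abs_mul, ← abs_mul]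
      exact abs_sub _ _
    linarith
  have hupp : |G.u y| * X ≤ 2 * Dd := by
    have h1 : |G.u y| * X ≤ Dd + |G.u w| * |G.v y| := by
      rw [hDd, hX, ← abs_mul, ← abs_mul]
      have e : G.u y * G.v w = G.u w * G.v y - G.D w w' := by rw [← hDy]; ring
      rw [e]
      calc _ ≤ |G.u w * G.v y| + |G.D w w'| := abs_sub _ _
        _ = _ := by ring
    linarith
  have hulow : X / (4 * G.K ^ 2) ≤ |G.u y| := by
    rw [div_le_iff₀ (by positivity)]
    have h1 : X * X ≤ X * (|G.u y| * (4 * G.K ^ 2)) := by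
      calc X * X = X ^ 2 := by ring
        _ ≤ 2 * G.K ^ 2 * Dd := hD
        _ = 4 * G.K ^ 2 * (Dd / 2) := by ring
        _ ≤ 4 * G.K ^ 2 * (|G.u y| * X) := by gcongr
        _ = _ := by ring
    exact le_of_mul_le_mul_left h1 hv
  have hy0 : y ≠ 0 := by
    intro h0
    rw [h0, map_zero, abs_zero] at hulow
    have : 0 < X / (4 * G.K ^ 2) := by positivity
    linarith
  have hdom : |G.v y| ≤ |G.u y| ^ ρ ∨ |G.u y| ≤ 1 := by
    left
    have h1 := hB2 X hBw2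
    calc |G.v y| ≤ X / 2 := hvy
      _ ≤ X := by linarith
      _ ≤ (X / (4 * G.K ^ 2)) ^ ρ := by
        rw [div_rpow hv.le (by positivity), le_div_iff₀ (by positivity)]
        calc X * (4 * G.K ^ 2) ^ ρ ≤ X * X ^ (ρ - 1) := by gcongr
          _ = X ^ ρ := by
            rw [rpow_sub_one hv.ne']; field_simp
      _ ≤ |G.u y| ^ ρ := rpow_le_rpow (by positivity) hulow (by linarith)
  have h1 := h.fail y hy0 hdom
  set M := 2 * G.K ^ 2 * Dd / X with hM
  have hXM : X ≤ M := by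
    rw [hM, le_div_iff₀ hv]
    calc X * X = X ^ 2 := by ring
      _ ≤ _ := hD
  have hMpos : 0 < M := by linarith
  have hHy : max 1 (G.H y) ≤ M := by
    apply max_le (by linarith)
    apply max_le
    · rw [hM, le_div_iff₀ hv]
      have : 2 * Dd ≤ 2 * G.K ^ 2 * Dd := by
        have : 1 ≤ G.K ^ 2 := one_le_pow₀ hK
        nlinarith
      linarith
    · linarith
  have hLy : |G.L y| ≤ 3 * (|G.L w| * |G.v w'|) / X := by
    rw [le_div_iff₀ hv, gen]
    have hpb : |(p : ℝ)| * X ≤ |G.v w'| + X / 2 := by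
      have h2 : |(p : ℝ)| ≤ |G.v w' / G.v w| + 1 / 2 := by
        have h3 := abs_sub_abs_le_abs_sub (p : ℝ) (G.v w' / G.v w)
        rw [abs_sub_comm] at h3
        linarith
      rw [abs_div] at h2
      have h3 := mul_le_mul_of_nonneg_right h2 hv.le
      rw [add_mul, ← hX, div_mul_cancel₀ _ hv.ne'] at h3
      linarith
    have h2 : |G.L w' - p * G.L w| ≤ |G.L w'| + |(p : ℝ)| * |G.L w| := by
      rw [← abs_mul]; exact abs_sub _ _
    calc |G.L w' - p * G.L w| * X ≤ (|G.L w'| + |(p : ℝ)| * |G.L w|) * X := by gcongr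
      _ = |G.L w'| * X + |G.L w| * (|(p : ℝ)| * X) := by ring
      _ ≤ |G.L w| * |G.v w'| + |G.L w| * (|G.v w'| + X / 2) := by
        have := hc.Llt
        gcongr
      _ ≤ |G.L w| * |G.v w'| + |G.L w| * (|G.v w'| + |G.v w'|) := by
        gcongr
        linarith
      _ = 3 * (|G.L w| * |G.v w'|) := by ring
  have h3 : c0 * M ^ (-s) ≤ 3 * (|G.L w| * |G.v w'|) / X := by
    calc c0 * M ^ (-s) ≤ c0 * (max 1 (G.H y)) ^ (-s) := by
          apply mul_le_mul_of_nonneg_left _ h.hc0.le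
          apply rpow_le_rpow_of_nonpos (lt_of_lt_of_le one_pos (le_max_left _ _)) hHy
          linarith
      _ ≤ |G.L y| := h1
      _ ≤ _ := hLy
  have hEpos : 0 < |G.L w| * |G.v w'| := mul_pos hL hv'
  have h4 := log_le_log (mul_pos h.hc0 (rpow_pos_of_pos hMpos _)) h3
  have e1 : log M = log (2 * G.K ^ 2) + log Dd - log X := by
    rw [hM, log_div (by positivity) hv.ne', log_mul (by positivity) hDpos.ne']
  have e2 : log (3 * (|G.L w| * |G.v w'|) / X) = log 3 + log (|G.L w| * |G.v w'|) - log X := by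
    rw [log_div (by positivity) hv.ne', log_mul (by norm_num) hEpos.ne']
  rw [log_mul h.hc0.ne' (rpow_pos_of_pos hMpos _).ne', log_rpow hMpos, e1, e2] at h4
  linarith

/-- two-dimensional Minkowski in the plane of `w` and `w'` -/
lemma mink2 (w w' : V3) (hD : G.D w w' ≠ 0) : ∃ a b : ℤ, (a ≠ 0 ∨ b ≠ 0) ∧
    |G.u (a • w + b • w')| < 1 ∧ |G.v (a • w + b • w')| < 2 * |G.D w w'| := by
  have hDpos : 0 < |G.D w w'| := abs_pos.mpr hD
  have hdet : (!![G.u w, G.u w'; G.v w, G.v w'] : Matrix (Fin 2) (Fin 2) ℝ).det = G.D w w' := by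
    rw [Matrix.det_fin_two]
    simp [Geo.D]
  obtain ⟨x, hx, hx2⟩ := minkowski_linear
    (!![G.u w, G.u w'; G.v w, G.v w'] : Matrix (Fin 2) (Fin 2) ℝ) (by rw [hdet]; exact hD)
    ![1, 2 * |G.D w w'|] (by
      intro i
      fin_cases i
      · simp
      · simpa using hD) (by
      rw [hdet]
      simp [Fin.prod_univ_two]
      linarith)
  refine ⟨x 0, x 1, ?_, ?_, ?_⟩
  · by_contra hcon
    push Not at hcon
    apply hx
    funext i
    fin_cases i
    · exact hcon.1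
    · exact hcon.2
  · have h0 := hx2 0
    simp [Fin.sum_univ_two] at h0
    rw [Geo.map_comb]
    convert h0 using 2
    ring
  · have h0 := hx2 1
    simp [Fin.sum_univ_two] at h0
    rw [Geo.map_comb]
    convert h0 using 2
    ring

/-- constraint 5 -/
lemma Fail.c5 (h : Fail G ρ s c0) {w w' : V3} (hD : G.D w w' ≠ 0)
    (hD1 : 1 ≤ 2 * |G.D w w'|) :
    c0 * (2 * |G.D w w'|) ^ (-s) ≤ |G.F w w'| / |G.D w w'|
      + 2 * (|G.L w| * |G.u w'|) + 2 * (|G.L w'| * |G.u w|) := by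
  have hs1 := h.hs1
  have hDpos : 0 < |G.D w w'| := abs_pos.mpr hD
  obtain ⟨a, b, hab, hu, hv⟩ := mink2 w w' hD
  set y : V3 := a • w + b • w' with hy
  have eD1 : G.u y * G.v w' - G.u w' * G.v y = a * G.D w w' := by
    rw [hy, Geo.map_comb, Geo.map_comb]; simp only [Geo.D]; ring
  have eD2 : G.u w * G.v y - G.u y * G.v w = b * G.D w w' := by
    rw [hy, Geo.map_comb, Geo.map_comb]; simp only [Geo.D]; ring
  have hy0 : y ≠ 0 := by
    intro h0
    rw [h0, map_zero, map_zero] at eD1 eD2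
    rcases hab with h1 | h1
    · have : (a : ℝ) ≠ 0 := by exact_mod_cast h1
      have := mul_ne_zero this hD
      apply this
      linarith
    · have : (b : ℝ) ≠ 0 := by exact_mod_cast h1
      have := mul_ne_zero this hD
      apply this
      linarith
  have h1 := h.fail y hy0 (Or.inr hu.le)
  have hHy : max 1 (G.H y) ≤ 2 * |G.D w w'| :=
    max_le hD1 (max_le (hu.le.trans hD1) hv.le)
  have h2 : c0 * (2 * |G.D w w'|) ^ (-s) ≤ |G.L y| := by
    refine le_trans ?_ h1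
    apply mul_le_mul_of_nonneg_left _ h.hc0.le
    apply rpow_le_rpow_of_nonpos (lt_of_lt_of_le one_pos (le_max_left _ _)) hHy
    linarith
  refine h2.trans ?_
  have e : G.L y * G.D w w' = G.u y * G.F w w' - G.v y * (G.L w * G.u w' - G.L w' * G.u w) := by
    rw [hy, Geo.map_comb, Geo.map_comb, Geo.map_comb]; simp only [Geo.D, Geo.F]; ring
  have h3 : |G.L y| * |G.D w w'| ≤ |G.F w w'| +
      2 * |G.D w w'| * (|G.L w| * |G.u w'| + |G.L w'| * |G.u w|) := by
    rw [← abs_mul, e]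
    calc _ ≤ |G.u y * G.F w w'| + |G.v y * (G.L w * G.u w' - G.L w' * G.u w)| := abs_sub _ _
      _ = |G.u y| * |G.F w w'| + |G.v y| * |G.L w * G.u w' - G.L w' * G.u w| := by
        rw [abs_mul, abs_mul]
      _ ≤ 1 * |G.F w w'| + 2 * |G.D w w'| * (|G.L w| * |G.u w'| + |G.L w'| * |G.u w|) := by
        gcongr
        rw [← abs_mul, ← abs_mul]
        exact abs_sub _ _
      _ = _ := by ring
  have h4 : |G.L y| ≤ (|G.F w w'| +
      2 * |G.D w w'| * (|G.L w| * |G.u w'| + |G.L w'| * |G.u w|)) / |G.D w w'| := by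
    rw [le_div_iff₀ hDpos]; exact h3
  refine h4.trans (le_of_eq ?_)
  field_simp
  ring

end Pool.Agent.Helper73.TH
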