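import Mathlib
import Pool.Agent.Helper73.TH.LCons2

set_option autoImplicit false

/-!
Project TH (MP_594f4b_nt, Q2): lower bound, assembly.
-/

namespace Pool.Agent.Helper73.TH

open Real

variable {G : Geo} {ρ s c0 : ℝ}

/-- the two-sided bound for `F` -/
lemma sign_bound (hρ : 1 < ρ) : ∃ C : ℝ, ∀ w w' : V3, G.Con w w' → Exc G ρ w → Exc G ρ w' →
    C ≤ log |G.v w| →
    0 < |G.F w w'| ∧ log |G.L w| + log |G.v w'| ≤ log |G.F w w'| ∧
    log |G.F w w'| ≤ log 2 + (log |G.L w| + log |G.v w'|) := by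
  have hδ : 0 < 1 - 1 / ρ := by
    rw [sub_pos, div_lt_one (by linarith)]; exact hρ
  obtain ⟨B, hB1, hB⟩ := exists_big (1 - 1 / ρ) 3 hδ
  refine ⟨log B, fun w w' hc he he' hBw => ?_⟩
  have hv : 0 < |G.v w| := by have := he.v1 hρ; linarith
  have hv' : 0 < |G.v w'| := by have := he'.v1 hρ; linarith
  have hlt : |G.v w| < |G.v w'| := by
    rw [← he.H_eq hρ, ← he'.H_eq hρ]; exact hc.Hlt
  have hBw' : B ≤ |G.v w| := (log_le_log_iff (by linarith) hv).mp hBw
  have hρinv : 0 ≤ 1 / ρ := by positivity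
  have hu : |G.u w| + |G.u w'| < |G.v w'| := by
    have h1 := he.u_le hρ
    have h2 := he'.u_le hρ
    have h3 : |G.v w| ^ (1 / ρ) ≤ |G.v w'| ^ (1 / ρ) := rpow_le_rpow hv.le hlt.le hρinv
    have h4 := hB |G.v w'| (hBw'.trans hlt.le)
    have hp : 0 < |G.v w'| ^ (1 / ρ) := rpow_pos_of_pos hv' _
    have e : |G.v w'| = |G.v w'| ^ (1 - 1 / ρ) * |G.v w'| ^ (1 / ρ) := by
      rw [← rpow_add hv']; norm_num
    have h5 : 3 * |G.v w'| ^ (1 / ρ) ≤ |G.v w'| := by
      calc 3 * |G.v w'| ^ (1 / ρ) ≤ |G.v w'| ^ (1 - 1 / ρ) * |G.v w'| ^ (1 / ρ) := by gcongr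
        _ = |G.v w'| := e.symm
    linarith
  obtain ⟨h1, h2⟩ := hc.sign hlt hv (he'.H_eq hρ) hu
  have hL := G.L_pos hc.ne
  have hE : 0 < |G.L w| * |G.v w'| := mul_pos hL hv'
  have hF : 0 < |G.F w w'| := lt_of_lt_of_le hE h1
  refine ⟨hF, ?_, ?_⟩
  · rw [← log_mul hL.ne' hv'.ne']; exact log_le_log hE h1
  · rw [← log_mul hL.ne' hv'.ne', ← log_mul (by norm_num) hE.ne']; exact log_le_log hF h2

/-- `D ≠ 0` for large consecutive minimal points -/
lemma D_ne (hρ : 1 < ρ) : ∃ C : ℝ, ∀ w w' : V3, G.Con w w' → Exc G ρ w → Exc G ρ w' →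
    C ≤ log |G.v w| → G.D w w' ≠ 0 := by
  obtain ⟨C, hC⟩ := sign_bound (G := G) hρ
  have hK := G.hK
  refine ⟨max C (log (2 * G.K ^ 2 + 1)), fun w w' hc he he' hBw hD => ?_⟩
  have hv : 0 < |G.v w| := by have := he.v1 hρ; linarith
  have hv' : 0 < |G.v w'| := by have := he'.v1 hρ; linarith
  have hlt : |G.v w| < |G.v w'| := by
    rw [← he.H_eq hρ, ← he'.H_eq hρ]; exact hc.Hlt
  have hF := (hC w w' hc he he' ((le_max_left _ _).trans hBw)).1
  have hB : 2 * G.K ^ 2 + 1 ≤ |G.v w| :=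
    (log_le_log_iff (by positivity) hv).mp ((le_max_right _ _).trans hBw)
  have hL := G.L_pos hc.ne
  have hLX := hc.LX
  rw [he'.H_eq hρ] at hLX
  have h1 : G.K * (|G.L w| * max |G.u w'| |G.v w'| + |G.L w'| * max |G.u w| |G.v w|) < 1 := by
    have e1 : max |G.u w'| |G.v w'| = |G.v w'| := he'.H_eq hρ
    have e2 : max |G.u w| |G.v w| = |G.v w| := he.H_eq hρ
    rw [e1, e2]
    have h2 : |G.L w'| * |G.v w| ≤ |G.L w| * |G.v w'| := by
      have := hc.Llt
      gcongr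
    have h3 : G.K * (|G.L w| * |G.v w'| + |G.L w'| * |G.v w|) * |G.v w'| ≤ 2 * G.K ^ 2 := by
      calc G.K * (|G.L w| * |G.v w'| + |G.L w'| * |G.v w|) * |G.v w'|
          ≤ G.K * (|G.L w| * |G.v w'| + |G.L w| * |G.v w'|) * |G.v w'| := by gcongr
        _ = 2 * G.K * (|G.L w| * |G.v w'| ^ 2) := by ring
        _ ≤ 2 * G.K * G.K := by gcongr
        _ = _ := by ring
    by_contra hcon
    push Not at hcon
    have h4 : 1 * |G.v w'| ≤ G.K * (|G.L w| * |G.v w'| + |G.L w'| * |G.v w|) * |G.v w'| := by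
      gcongr
    linarith
  have h2 := G.wedge w w' hD h1
  rw [Geo.F, h2, abs_zero] at hF
  exact lt_irrefl _ hF

/-- constraint 1 in its strict form, for all large pairs -/
lemma Fail.strict1 (h : Fail G ρ s c0) {σ : ℝ} (hσ : s < σ) : ∃ C : ℝ, ∀ w w' : V3,
    G.Con w w' → Exc G ρ w → Exc G ρ w' → C ≤ log |G.v w| →
    log |G.v w'| < (σ - 1) * (-log |G.F w w'|) := by
  obtain ⟨C, hC⟩ := sign_bound (G := G) h.hρ
  have hρ := h.hρ
  have hs1 := h.hs1
  obtain ⟨C1, hC1⟩ : ∃ C1 : ℝ, C1 = (s - 1) * log 2 + (s * log (G.K + 1) - log c0) := ⟨_, rfl⟩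
  refine ⟨max C (max 1 (|C1| + (s - 1) * |C1| / (σ - s) + 1)), fun w w' hc he he' hBw => ?_⟩
  obtain ⟨hF, h1, h2⟩ := hC w w' hc he he' ((le_max_left _ _).trans hBw)
  have hv' : 0 < |G.v w'| := by have := he'.v1 hρ; linarith
  have hv : 0 < |G.v w| := by have := he.v1 hρ; linarith
  have hlt : log |G.v w| < log |G.v w'| := by
    apply log_lt_log hv
    rw [← he.H_eq hρ, ← he'.H_eq hρ]; exact hc.Hlt
  have hL := G.L_pos hc.ne
  have h3 := h.c1 hc he'
  rw [log_mul hL.ne' hv'.ne'] at h3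
  have hx : |C1| + (s - 1) * |C1| / (σ - s) + 1 < log |G.v w'| :=
    (((le_max_right _ _).trans (le_max_right _ _)).trans hBw).trans_lt hlt
  set x1 := log |G.v w'| with hx1
  set e := -log |G.F w w'| with he_def
  have h4 : x1 ≤ (s - 1) * e + C1 := by
    have : (s - 1) * (-(log |G.L w| + x1)) ≤ (s - 1) * (e + log 2) := by
      apply mul_le_mul_of_nonneg_left _ (by linarith)
      linarith
    rw [hC1]
    nlinarith
  have hC1a : C1 ≤ |C1| := le_abs_self _
  have hd : 0 < σ - s := by linarith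
  -- `(σ - s) e > |C1|`
  have h5 : (s - 1) * |C1| < (σ - s) * (x1 - |C1|) := by
    have : (s - 1) * |C1| / (σ - s) < x1 - |C1| := by linarith
    rw [div_lt_iff₀ hd] at this
    linarith
  have h6 : (s - 1) * |C1| < (s - 1) * ((σ - s) * e) := by
    have : x1 - |C1| ≤ (s - 1) * e := by linarith
    have := mul_le_mul_of_nonneg_left this hd.le
    nlinarith
  have h7 : |C1| < (σ - s) * e := lt_of_mul_lt_mul_left h6 (by linarith)
  nlinarith

/-- the four inequalities at the start of a plane -/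
lemma Fail.start (h : Fail G ρ s c0) {σ : ℝ} (hσ : s < σ) : ∃ C : ℝ, ∀ w0 w w' : V3,
    G.Con w0 w → G.Con w w' → Exc G ρ w0 → Exc G ρ w → Exc G ρ w' →
    C ≤ log |G.v w| → G.dt w0 w w' ≠ 0 →
    log |G.v w| ^ 1 ≤ log |G.D w w'| - log |G.v w| + log (2 * G.K ^ 2) ∧
    -log |G.F w w'| < σ * (log |G.D w w'| - log 2) - (1 + σ) * log |G.v w| ∧
    (ρ - 1) * (-log |G.F w w'| + log |G.v w'|) <
      (σ * ρ + 1) * log |G.v w| - (1 + σ) * ρ * log |G.u w| ∧
    (log |G.D w w'| - log 2 ≤ log |G.u w| + log |G.v w'| ∨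
      (log |G.D w w'| - log 2 ≤ log |G.u w'| + log |G.v w| ∧
        ρ * log |G.u w'| ≤ log |G.v w'|)) := by
  obtain ⟨C0, hC0⟩ := sign_bound (G := G) h.hρ
  obtain ⟨B1, hB1, hD1⟩ := start_D (G := G) h.hρ
  obtain ⟨B2, hB2, hD2⟩ := h.c2
  obtain ⟨C3, hC3⟩ := D_ne (G := G) h.hρ
  have hρ := h.hρ
  have hs1 := h.hs1
  have hK := G.hK
  have hd : 0 < σ - s := by linarith
  obtain ⟨C2, hC2⟩ : ∃ C : ℝ, C = s * log (2 * G.K ^ 2) + log 3 - log c0 + σ * log 2 := ⟨_, rfl⟩
  obtain ⟨C4, hC4⟩ : ∃ C : ℝ, C = (ρ - 1) * ((1 + s) * log 2 - log c0) := ⟨_, rfl⟩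
  refine ⟨max (max (max C0 (log B1)) (max (log B2) C3))
    (max (|C2| / (σ - s) + log (2 * G.K ^ 2) + 1) (|C4| / ((σ - s) * (ρ - 1)) + 1)),
    fun w0 w w' hc0 hc he0 he he' hBw hdt => ?_⟩
  have k1 : C0 ≤ log |G.v w| :=
    (((le_max_left _ _).trans (le_max_left _ _)).trans (le_max_left _ _)).trans hBw
  have k2 : log B1 ≤ log |G.v w| :=
    (((le_max_right _ _).trans (le_max_left _ _)).trans (le_max_left _ _)).trans hBw
  have k3 : log B2 ≤ log |G.v w| :=
    (((le_max_left _ _).trans (le_max_right _ _)).trans (le_max_left _ _)).trans hBw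
  have k4 : C3 ≤ log |G.v w| :=
    (((le_max_right _ _).trans (le_max_right _ _)).trans (le_max_left _ _)).trans hBw
  have k5 : |C2| / (σ - s) + log (2 * G.K ^ 2) + 1 ≤ log |G.v w| :=
    ((le_max_left _ _).trans (le_max_right _ _)).trans hBw
  have k6 : |C4| / ((σ - s) * (ρ - 1)) + 1 ≤ log |G.v w| :=
    ((le_max_right _ _).trans (le_max_right _ _)).trans hBw
  have hv : 0 < |G.v w| := by have := he.v1 hρ; linarith
  have hv' : 0 < |G.v w'| := by have := he'.v1 hρ; linarith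
  have hu : 0 < |G.u w| := by have := he.u1; linarith
  have hu' : 0 < |G.u w'| := by have := he'.u1; linarith
  have hL := G.L_pos hc.ne
  obtain ⟨hF, h1, h2⟩ := hC0 w w' hc he he' k1
  have hX2 := hD1 w0 w w' hc0 hc he0 he he' ((log_le_log_iff (by linarith) hv).mp k2) hdt
  have hc2 := hD2 w w' hc he he' ((log_le_log_iff (by linarith) hv).mp k3) hX2
  have hDne := hC3 w w' hc he he' k4
  have hDpos : 0 < |G.D w w'| := abs_pos.mpr hDne
  have hX2l : log |G.v w| ≤ log |G.D w w'| - log |G.v w| + log (2 * G.K ^ 2) := by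
    have h3 := log_le_log (by positivity) hX2
    rw [log_pow, log_mul (by positivity) hDpos.ne'] at h3
    push_cast at h3
    linarith
  have hlog2 : 0 < log 2 := log_pos (by norm_num)
  rw [log_mul hL.ne' hv'.ne'] at hc2
  have hc3 := h.c3 hc.ne he
  rw [← hC4] at hc3
  refine ⟨by rw [pow_one]; exact hX2l, ?_, ?_, ?_⟩
  · -- constraint 2
    have h4 : |C2| / (σ - s) < log |G.D w w'| - log |G.v w| := by linarith
    rw [div_lt_iff₀ hd] at h4
    have h6 : C2 < (log |G.D w w'| - log |G.v w|) * (σ - s) := lt_of_le_of_lt (le_abs_self C2) h4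
    rw [hC2] at h6
    linarith
  · -- constraint 3
    have hA := he.logA
    have h4 : |C4| / ((σ - s) * (ρ - 1)) < log |G.v w| := by linarith
    rw [div_lt_iff₀ (mul_pos hd (by linarith))] at h4
    have h5 := le_abs_self C4
    have h6 : (σ - s) * ((ρ - 1) * log |G.v w|) ≤
        (σ - s) * (ρ * log |G.v w| - ρ * log |G.u w|) := by
      apply mul_le_mul_of_nonneg_left _ hd.le
      nlinarith
    have h7 : (ρ - 1) * (-log |G.F w w'| + log |G.v w'|) ≤ (ρ - 1) * (-log |G.L w|) := by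
      apply mul_le_mul_of_nonneg_left _ (by linarith)
      linarith
    linarith
  · -- constraint 4
    have h3 : |G.D w w'| ≤ |G.u w| * |G.v w'| + |G.u w'| * |G.v w| := by
      rw [← abs_mul, ← abs_mul]; exact abs_sub _ _
    rcases le_total (|G.u w'| * |G.v w|) (|G.u w| * |G.v w'|) with h4 | h4
    · left
      have h5 : |G.D w w'| ≤ 2 * (|G.u w| * |G.v w'|) := by linarith
      have h6 := log_le_log hDpos h5
      rw [log_mul (by norm_num) (mul_pos hu hv').ne', log_mul hu.ne' hv'.ne'] at h6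
      linarith
    · right
      have h5 : |G.D w w'| ≤ 2 * (|G.u w'| * |G.v w|) := by linarith
      have h6 := log_le_log hDpos h5
      rw [log_mul (by norm_num) (mul_pos hu' hv).ne', log_mul hu'.ne' hv.ne'] at h6
      exact ⟨by linarith, he'.logA.le⟩

/-- the trichotomy at the end of a plane -/
lemma Fail.fin (h : Fail G ρ s c0) {σ : ℝ} (hσ : s < σ) : ∃ C : ℝ, ∀ w w' w'' : V3,
    G.Con w w' → G.Con w' w'' → Exc G ρ w → Exc G ρ w' → Exc G ρ w'' →
    C ≤ log |G.v w| → C ≤ log |G.D w w'| →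
    (-log |G.F w w'| < (σ - 1) * (log |G.D w w'| - log 2) ∨
      log |G.v w'| + (-log |G.F w w'|) - σ * (log |G.D w w'| - log 2) < log |G.u w'| ∨
      -log |G.F w' w''| + log |G.v w''| < log |G.u w| + σ * (log |G.D w w'| - log 2)) := by
  obtain ⟨C0, hC0⟩ := sign_bound (G := G) h.hρ
  obtain ⟨C3, hC3⟩ := D_ne (G := G) h.hρ
  have hρ := h.hρ
  have hs1 := h.hs1
  have hc0 := h.hc0
  have hd : 0 < σ - s := by linarith
  have hlog2 : 0 < log 2 := log_pos (by norm_num)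
  obtain ⟨C1, hC1⟩ : ∃ C : ℝ, C = (σ + s + 1) * log 2 + |log (c0 / 3)| + 1 := ⟨_, rfl⟩
  have hC1pos : 0 < C1 := by
    have : 0 < σ + s + 1 := by linarith
    rw [hC1]; positivity
  refine ⟨max (max C0 C3) (C1 / (σ - s) + 1), fun w w' w'' hc hc' he he' he'' hBw hBD => ?_⟩
  have k1 : C0 ≤ log |G.v w| := ((le_max_left _ _).trans (le_max_left _ _)).trans hBw
  have k2 : C3 ≤ log |G.v w| := ((le_max_right _ _).trans (le_max_left _ _)).trans hBw
  have k3 : C1 / (σ - s) + 1 ≤ log |G.D w w'| := (le_max_right _ _).trans hBD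
  have hv : 0 < |G.v w| := by have := he.v1 hρ; linarith
  have hv' : 0 < |G.v w'| := by have := he'.v1 hρ; linarith
  have hu : 0 < |G.u w| := by have := he.u1; linarith
  have hu' : 0 < |G.u w'| := by have := he'.u1; linarith
  have hlt : log |G.v w| < log |G.v w'| := by
    apply log_lt_log hv
    rw [← he.H_eq hρ, ← he'.H_eq hρ]; exact hc.Hlt
  have hL := G.L_pos hc.ne
  have hL' := G.L_pos hc.ne'
  obtain ⟨hF, h1, h2⟩ := hC0 w w' hc he he' k1
  obtain ⟨hF', h1', h2'⟩ := hC0 w' w'' hc' he' he'' (k1.trans hlt.le)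
  have hDne := hC3 w w' hc he he' k2
  have hDpos : 0 < |G.D w w'| := abs_pos.mpr hDne
  have hlogD : C1 / (σ - s) < log |G.D w w'| := by linarith
  have hDC : C1 < (σ - s) * log |G.D w w'| := by
    rw [div_lt_iff₀ hd] at hlogD; linarith
  have hlogD0 : 0 < log |G.D w w'| := lt_trans (by positivity) hlogD
  have hD1 : 1 < |G.D w w'| := (log_pos_iff hDpos.le).mp hlogD0
  have h5 := h.c5 hDne (by linarith)
  set Y := c0 * (2 * |G.D w w'|) ^ (-s) with hY
  have h2D : 0 < 2 * |G.D w w'| := by linarith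
  have hYpos : 0 < Y := mul_pos hc0 (rpow_pos_of_pos h2D _)
  have hlogY : log (Y / 3) = log (c0 / 3) - s * (log 2 + log |G.D w w'|) := by
    have e : Y / 3 = (c0 / 3) * (2 * |G.D w w'|) ^ (-s) := by rw [hY]; ring
    rw [e, log_mul (by positivity) (rpow_pos_of_pos h2D _).ne', log_rpow h2D,
      log_mul (by norm_num) hDpos.ne']
    ring
  have habs := neg_abs_le (log (c0 / 3))
  have hY3 : 0 < Y / 3 := by positivity
  have hσ1 : 0 < σ := by linarith
  rcases le_or_gt (Y / 3) (|G.F w w'| / |G.D w w'|) with ha | ha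
  · left
    have h6 := log_le_log hY3 ha
    rw [hlogY, log_div hF.ne' hDpos.ne'] at h6
    rw [hC1] at hDC
    linarith
  rcases le_or_gt (Y / 3) (2 * (|G.L w| * |G.u w'|)) with hb | hb
  · right; left
    have h6 := log_le_log hY3 hb
    rw [hlogY, log_mul (by norm_num) (mul_pos hL hu').ne', log_mul hL.ne' hu'.ne'] at h6
    rw [hC1] at hDC
    linarith
  · right; right
    have hcc : Y / 3 ≤ 2 * (|G.L w'| * |G.u w|) := by linarith
    have h6 := log_le_log hY3 hcc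
    rw [hlogY, log_mul (by norm_num) (mul_pos hL' hu).ne', log_mul hL'.ne' hu.ne'] at h6
    rw [hC1] at hDC
    linarith

end Pool.Agent.Helper73.TH
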