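import Mathlib
import Pool.Agent.Helper73.TH.LMain
import Pool.Agent.Helper35.TH.P2

set_option autoImplicit false

/-!
Project TH (MP_594f4b_nt, Q2): lower bound, the contradiction.
-/

namespace Pool.Agent.Helper73.TH

open Real

theorem lower_core (G : Geo) (ρ s σ β c0 : ℝ) (hc : Curve ρ σ β) (h : Fail G ρ s c0)
    (hσ : s < σ) : False := by
  have hρ := h.hρ
  have hs1 := h.hs1
  have hK := G.hK
  obtain ⟨w, hne, hLd, hHi, hmin, htend⟩ := G.exists_seq
  have con : ∀ i, G.Con (w i) (w (i + 1)) := fun i =>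
    ⟨hne i, hne (i + 1), hLd i, hHi i, hmin i⟩
  obtain ⟨B, hB⟩ := h.excl
  obtain ⟨C1, hC1⟩ := D_ne (G := G) hρ
  obtain ⟨C2, hC2⟩ := h.strict1 hσ
  obtain ⟨C3, hC3⟩ := h.start hσ
  obtain ⟨C4, hC4⟩ := h.fin hσ
  obtain ⟨C, hCdef⟩ : ∃ C : ℝ, C = max (max (max C1 C2) (max C3 C4)) (max (log (2 * G.K ^ 2)) 1) :=
    ⟨_, rfl⟩
  have k1 : C1 ≤ C := by
    rw [hCdef]
    exact ((le_max_left _ _).trans (le_max_left _ _)).trans (le_max_left _ _)
  have k2 : C2 ≤ C := by
    rw [hCdef]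
    exact ((le_max_right _ _).trans (le_max_left _ _)).trans (le_max_left _ _)
  have k3 : C3 ≤ C := by
    rw [hCdef]
    exact ((le_max_left _ _).trans (le_max_right _ _)).trans (le_max_left _ _)
  have k4 : C4 ≤ C := by
    rw [hCdef]
    exact ((le_max_right _ _).trans (le_max_right _ _)).trans (le_max_left _ _)
  have k5 : log (2 * G.K ^ 2) ≤ C := by
    rw [hCdef]
    exact (le_max_left _ _).trans (le_max_right _ _)
  have k6 : 1 ≤ C := by
    rw [hCdef]
    exact (le_max_right _ _).trans (le_max_right _ _)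
  obtain ⟨N, hN⟩ := Filter.eventually_atTop.mp (htend.eventually_ge_atTop (max B (exp C)))
  have exc : ∀ i, N ≤ i → Exc G ρ (w i) := fun i hi =>
    hB _ _ (con i) ((le_max_left _ _).trans (hN i hi))
  have vpos : ∀ i, N ≤ i → 0 < |G.v (w i)| := fun i hi => by
    have := (exc i hi).v1 hρ
    linarith
  have big : ∀ i, N ≤ i → C ≤ log |G.v (w i)| := by
    intro i hi
    rw [le_log_iff_exp_le (vpos i hi), ← (exc i hi).H_eq hρ]
    exact (le_max_right _ _).trans (hN i hi)
  have vmono : ∀ i, N ≤ i → log |G.v (w i)| < log |G.v (w (i + 1))| := by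
    intro i hi
    apply log_lt_log (vpos i hi)
    rw [← (exc i hi).H_eq hρ, ← (exc (i + 1) (by omega)).H_eq hρ]
    exact hHi i
  have vmono' : ∀ i, N ≤ i → ∀ n, log |G.v (w i)| ≤ log |G.v (w (i + n))| := by
    intro i hi n
    induction n with
    | zero => exact le_rfl
    | succ n ih => exact ih.trans (vmono (i + n) (by omega)).le
  have Dne : ∀ i, N ≤ i → G.D (w i) (w (i + 1)) ≠ 0 := fun i hi =>
    hC1 _ _ (con i) (exc i hi) (exc (i + 1) (by omega)) (k1.trans (big i hi))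
  have str1 : ∀ i, N ≤ i →
      log |G.v (w (i + 1))| < (σ - 1) * (-log |G.F (w i) (w (i + 1))|) := fun i hi =>
    hC2 _ _ (con i) (exc i hi) (exc (i + 1) (by omega)) (k2.trans (big i hi))
  -- constancy along a run
  have run : ∀ i, N ≤ i → ∀ n, (∀ k, k < n → G.dt (w (i + k)) (w (i + k + 1)) (w (i + k + 2)) = 0) →
      |G.D (w (i + n)) (w (i + n + 1))| = |G.D (w i) (w (i + 1))| ∧
      |G.F (w (i + n)) (w (i + n + 1))| = |G.F (w i) (w (i + 1))| := by
    intro i hi n
    induction n with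
    | zero => intro _; exact ⟨rfl, rfl⟩
    | succ n ih =>
      intro hk
      obtain ⟨h1, h2⟩ := ih (fun k hk' => hk k (by omega))
      obtain ⟨h3, h4⟩ := (con (i + n)).const (con (i + n + 1)) (Dne (i + n) (by omega))
        (hk n (by omega))
      exact ⟨h3.trans h1, h4.trans h2⟩
  -- there are infinitely many starts of planes
  have starts : ∀ i, N ≤ i → ∃ n, G.dt (w (i + n)) (w (i + n + 1)) (w (i + n + 2)) ≠ 0 := by
    intro i hi
    by_contra hcon
    push Not at hcon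
    have hb : ∀ n, log |G.v (w (i + n + 1))| < (σ - 1) * (-log |G.F (w i) (w (i + 1))|) := by
      intro n
      have h1 := str1 (i + n) (by omega)
      rw [(run i hi n (fun k _ => hcon k)).2] at h1
      exact h1
    obtain ⟨M, hM⟩ := Filter.eventually_atTop.mp (htend.eventually_ge_atTop
      (exp ((σ - 1) * (-log |G.F (w i) (w (i + 1))|))))
    have h1 := hM (i + M + 1) (by omega)
    rw [(exc (i + M + 1) (by omega)).H_eq hρ] at h1
    have h2 := (le_log_iff_exp_le (vpos (i + M + 1) (by omega))).mpr h1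
    exact absurd (hb M) (not_lt.mpr h2)
  -- the inequalities at the start of a plane
  have key : ∀ i, N ≤ i → G.dt (w i) (w (i + 1)) (w (i + 2)) ≠ 0 →
      log |G.u (w (i + 1))| < (1 - β) * log |G.v (w (i + 1))| ∧
      (1 + σ) * log |G.v (w (i + 1))| < β * log |G.v (w (i + 2))| ∧
      C ≤ log |G.D (w (i + 1)) (w (i + 2))| ∧
      -log |G.F (w (i + 1)) (w (i + 2))| < σ * (log |G.D (w (i + 1)) (w (i + 2))| - log 2)
        - (1 + σ) * log |G.v (w (i + 1))| ∧
      (log |G.D (w (i + 1)) (w (i + 2))| - log 2 ≤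
          log |G.u (w (i + 1))| + log |G.v (w (i + 2))| ∨
        (log |G.D (w (i + 1)) (w (i + 2))| - log 2 ≤
            log |G.u (w (i + 2))| + log |G.v (w (i + 1))| ∧
          ρ * log |G.u (w (i + 2))| ≤ log |G.v (w (i + 2))|)) := by
    intro i hi hdt
    have e0 := exc i hi
    have e1 := exc (i + 1) (by omega)
    have e2 := exc (i + 2) (by omega)
    have hbig := big (i + 1) (by omega)
    obtain ⟨h0, h2, h3, h4⟩ := hC3 _ _ _ (con i) (con (i + 1)) e0 e1 e2 (k3.trans hbig) hdt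
    have h1 := str1 (i + 1) (by omega)
    have hxpos : 0 < log |G.v (w (i + 1))| := lt_of_lt_of_le one_pos (k6.trans hbig)
    obtain ⟨a1, a2⟩ := lemmaA hc hρ (log |G.v (w (i + 1))|) (log |G.u (w (i + 1))|)
      (log |G.D (w (i + 1)) (w (i + 2))| - log 2) (-log |G.F (w (i + 1)) (w (i + 2))|)
      (log |G.v (w (i + 2))|) (log |G.u (w (i + 2))|) hxpos e1.A0.le e2.A0.le e1.logA.le
      (vmono (i + 1) (by omega)) h1 h2 h3 h4
    rw [pow_one] at h0
    exact ⟨a1, a2, by linarith, h2, h4⟩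
  -- two consecutive starts
  obtain ⟨n0, hn0⟩ := starts N le_rfl
  obtain ⟨j, hj⟩ : ∃ j, j = N + n0 := ⟨_, rfl⟩
  rw [← hj] at hn0
  have hNj : N ≤ j := by omega
  classical
  have hex := starts (j + 1) (by omega)
  obtain ⟨n, hn⟩ : ∃ n, n = Nat.find hex := ⟨_, rfl⟩
  have hn1 : G.dt (w (j + 1 + n)) (w (j + 1 + n + 1)) (w (j + 1 + n + 2)) ≠ 0 := by
    rw [hn]; exact Nat.find_spec hex
  have hn2 : ∀ k, k < n → G.dt (w (j + 1 + k)) (w (j + 1 + k + 1)) (w (j + 1 + k + 2)) = 0 := by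
    intro k hk
    have := Nat.find_min hex (m := k) (by rw [← hn]; exact hk)
    push Not at this
    exact this
  obtain ⟨rD, rF⟩ := run (j + 1) (by omega) n hn2
  obtain ⟨a1, a2, a3, a4, a5⟩ := key j hNj hn0
  obtain ⟨b1, b2, -, -, -⟩ := key (j + 1 + n) (by omega) hn1
  have e1 := exc (j + 1 + n) (by omega)
  have e2 := exc (j + 1 + n + 1) (by omega)
  have e3 := exc (j + 1 + n + 2) (by omega)
  have h5 := hC4 _ _ _ (con (j + 1 + n)) (con (j + 1 + n + 1)) e1 e2 e3
    (k4.trans (big _ (by omega))) (by rw [rD]; exact k4.trans a3)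
  rw [rD, rF] at h5
  have h1 := str1 (j + 1 + n) (by omega)
  rw [rF] at h1
  have h1' := str1 (j + 1 + n + 1) (by omega)
  have hxpos : 0 < log |G.v (w (j + 1))| := lt_of_lt_of_le one_pos (k6.trans (big _ (by omega)))
  have hμ : log |G.v (w (j + 2))| ≤ log |G.v (w (j + 1 + n + 1))| := by
    have := vmono' (j + 2) (by omega) n
    rwa [show j + 2 + n = j + 1 + n + 1 by ring] at this
  have hAn : log |G.u (w (j + 1 + n))| ≤ log |G.v (w (j + 1 + n + 1))| := by
    have h6 := vmono (j + 1 + n) (by omega)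
    have h7 := e1.logA
    have h8 := e1.A0
    nlinarith
  have := lemmaB hc hρ (log |G.v (w (j + 1))|) (log |G.u (w (j + 1))|)
    (log |G.D (w (j + 1)) (w (j + 2))| - log 2) (-log |G.F (w (j + 1)) (w (j + 2))|)
    (log |G.v (w (j + 2))|) (log |G.u (w (j + 2))|) (log |G.v (w (j + 1 + n + 1))|)
    (log |G.u (w (j + 1 + n + 1))|) (log |G.u (w (j + 1 + n))|) (log |G.v (w (j + 1 + n + 2))|)
    (-log |G.F (w (j + 1 + n + 1)) (w (j + 1 + n + 2))|) hxpos
    (exc (j + 1) (by omega)).A0.le a1 a2 hμ h1 a4 a5 hAn b2 h1' h5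
  linarith

end Pool.Agent.Helper73.TH
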