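import Mathlib
import Pool.Agent.Helper73.TH.LCore

set_option autoImplicit false

/-!
Project TH (MP_594f4b_nt, Q2): lower bound, the concrete setting.
-/

namespace Pool.Agent.Helper73.TH

open Real

/-- the functional with given coefficients -/
noncomputable def lin (r0 r1 r2 : ℝ) : V3 →+ ℝ where
  toFun y := r0 * y 0 + r1 * y 1 + r2 * y 2
  map_zero' := by simp
  map_add' y z := by simp only [Pi.add_apply]; push_cast; ring

lemma lin_apply (r0 r1 r2 : ℝ) (y : V3) : lin r0 r1 r2 y = r0 * y 0 + r1 * y 1 + r2 * y 2 := rfl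

lemma exists_geo (p1 q1 p2 q2 θ1 θ2 : ℝ) (hΔ : p1 * q2 - q1 * p2 ≠ 0)
    (hind : ∀ a b c : ℤ, (a : ℝ) + b * θ1 + c * θ2 = 0 → a = 0 ∧ b = 0 ∧ c = 0) :
    ∃ G : Geo, G.u = lin 0 p1 q1 ∧ G.v = lin 0 p2 q2 ∧ G.L = lin 1 θ1 θ2 ∧
      ∃ M : ℝ, 1 ≤ M ∧ ∀ y : V3, |(y 1 : ℝ)| ≤ M * G.H y ∧ |(y 2 : ℝ)| ≤ M * G.H y := by
  set Δ := p1 * q2 - q1 * p2 with hΔdef
  have hΔpos : 0 < |Δ| := abs_pos.mpr hΔ
  obtain ⟨M, hM⟩ : ∃ M : ℝ, M = 1 + (|p1| + |q1| + |p2| + |q2|) / |Δ| := ⟨_, rfl⟩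
  have hM1 : 1 ≤ M := by
    have : 0 ≤ (|p1| + |q1| + |p2| + |q2|) / |Δ| := by positivity
    linarith
  obtain ⟨K, hKdef⟩ : ∃ K : ℝ, K = M + |Δ| + 1 / |Δ| := ⟨_, rfl⟩
  have hKinv : 0 < 1 / |Δ| := by positivity
  -- bounds for the coordinates
  have coord : ∀ y : V3, |(y 1 : ℝ)| ≤ M * max |lin 0 p1 q1 y| |lin 0 p2 q2 y| ∧
      |(y 2 : ℝ)| ≤ M * max |lin 0 p1 q1 y| |lin 0 p2 q2 y| := by
    intro y
    set h := max |lin 0 p1 q1 y| |lin 0 p2 q2 y| with hh
    have hu : |lin 0 p1 q1 y| ≤ h := le_max_left _ _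
    have hv : |lin 0 p2 q2 y| ≤ h := le_max_right _ _
    have h0 : 0 ≤ h := (abs_nonneg _).trans hu
    have e1 : (y 1 : ℝ) * Δ = q2 * lin 0 p1 q1 y - q1 * lin 0 p2 q2 y := by
      rw [lin_apply, lin_apply, hΔdef]; ring
    have e2 : (y 2 : ℝ) * Δ = p1 * lin 0 p2 q2 y - p2 * lin 0 p1 q1 y := by
      rw [lin_apply, lin_apply, hΔdef]; ring
    have hMh : (|p1| + |q1| + |p2| + |q2|) * h ≤ M * h * |Δ| := by
      have : M * |Δ| = |Δ| + (|p1| + |q1| + |p2| + |q2|) := by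
        rw [hM]; field_simp
      calc (|p1| + |q1| + |p2| + |q2|) * h ≤ (M * |Δ|) * h := by
            rw [this]
            exact mul_le_mul_of_nonneg_right (by linarith) h0
        _ = M * h * |Δ| := by ring
    have hp1 := abs_nonneg p1
    have hp2 := abs_nonneg p2
    have hq1 := abs_nonneg q1
    have hq2 := abs_nonneg q2
    constructor
    · apply le_of_mul_le_mul_right _ hΔpos
      rw [← abs_mul, e1]
      calc |q2 * lin 0 p1 q1 y - q1 * lin 0 p2 q2 y| ≤ |q2 * lin 0 p1 q1 y| + |q1 * lin 0 p2 q2 y| :=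
            abs_sub _ _
        _ = |q2| * |lin 0 p1 q1 y| + |q1| * |lin 0 p2 q2 y| := by rw [abs_mul, abs_mul]
        _ ≤ |q2| * h + |q1| * h := by gcongr
        _ ≤ (|p1| + |q1| + |p2| + |q2|) * h := by nlinarith
        _ ≤ _ := hMh
    · apply le_of_mul_le_mul_right _ hΔpos
      rw [← abs_mul, e2]
      calc |p1 * lin 0 p2 q2 y - p2 * lin 0 p1 q1 y| ≤ |p1 * lin 0 p2 q2 y| + |p2 * lin 0 p1 q1 y| :=
            abs_sub _ _
        _ = |p1| * |lin 0 p2 q2 y| + |p2| * |lin 0 p1 q1 y| := by rw [abs_mul, abs_mul]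
        _ ≤ |p1| * h + |p2| * h := by gcongr
        _ ≤ (|p1| + |q1| + |p2| + |q2|) * h := by nlinarith
        _ ≤ _ := hMh
  refine ⟨⟨lin 0 p1 q1, lin 0 p2 q2, lin 1 θ1 θ2, K, ?_, ?_, ?_, ?_, ?_, ?_⟩, rfl, rfl, rfl,
    M, hM1, coord⟩
  · linarith
  · -- Minkowski
    intro a b c ha hb hc habc
    have hdet : (!![0, p1, q1; 0, p2, q2; 1, θ1, θ2] : Matrix (Fin 3) (Fin 3) ℝ).det = Δ := by
      rw [Matrix.det_fin_three]
      simp [hΔdef]
    obtain ⟨x, hx, hx2⟩ := minkowski_linear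
      (!![0, p1, q1; 0, p2, q2; 1, θ1, θ2] : Matrix (Fin 3) (Fin 3) ℝ) (by rw [hdet]; exact hΔ)
      ![a, b, c] (by
        intro i
        fin_cases i
        · exact ha
        · exact hb
        · exact hc) (by
        rw [hdet]
        simp only [Fin.prod_univ_three, Matrix.cons_val_zero, Matrix.cons_val_one, Matrix.cons_val]
        linarith)
    refine ⟨x, hx, ?_, ?_, ?_⟩
    · have h0 := hx2 0
      simp [Fin.sum_univ_three] at h0
      rw [lin_apply]
      simpa using h0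
    · have h0 := hx2 1
      simp [Fin.sum_univ_three] at h0
      rw [lin_apply]
      simpa using h0
    · have h0 := hx2 2
      simp [Fin.sum_univ_three] at h0
      rw [lin_apply]
      simpa using h0
  · -- finiteness
    intro B
    obtain ⟨N, hN⟩ := exists_nat_gt (M * |B| + |B| + |θ1| * (M * |B|) + |θ2| * (M * |B|))
    apply (Set.finite_Icc (fun _ : Fin 3 => -(N : ℤ)) (fun _ => (N : ℤ))).subset
    rintro y ⟨h1, h2, h3⟩
    have hBabs : B ≤ |B| := le_abs_self B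
    have hB0 : 0 ≤ |B| := abs_nonneg B
    have hH : max |lin 0 p1 q1 y| |lin 0 p2 q2 y| ≤ |B| := max_le (h1.trans hBabs) (h2.trans hBabs)
    obtain ⟨c1, c2⟩ := coord y
    have d1 : |(y 1 : ℝ)| ≤ M * |B| := c1.trans (by gcongr)
    have d2 : |(y 2 : ℝ)| ≤ M * |B| := c2.trans (by gcongr)
    have hMB : 0 ≤ M * |B| := by positivity
    have t1 : 0 ≤ |θ1| * (M * |B|) := by positivity
    have t2 : 0 ≤ |θ2| * (M * |B|) := by positivity
    have d0 : |(y 0 : ℝ)| ≤ |B| + |θ1| * (M * |B|) + |θ2| * (M * |B|) := by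
      have e : (y 0 : ℝ) = lin 1 θ1 θ2 y - θ1 * y 1 - θ2 * y 2 := by rw [lin_apply]; ring
      rw [e]
      calc |lin 1 θ1 θ2 y - θ1 * y 1 - θ2 * y 2| ≤ |lin 1 θ1 θ2 y - θ1 * y 1| + |θ2 * y 2| := abs_sub _ _
        _ ≤ |lin 1 θ1 θ2 y| + |θ1 * y 1| + |θ2 * y 2| := by gcongr; exact abs_sub _ _
        _ = |lin 1 θ1 θ2 y| + |θ1| * |(y 1 : ℝ)| + |θ2| * |(y 2 : ℝ)| := by rw [abs_mul, abs_mul]
        _ ≤ _ := by
          have e1 := h3.trans hBabs
          have e2 := mul_le_mul_of_nonneg_left d1 (abs_nonneg θ1)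
          have e3 := mul_le_mul_of_nonneg_left d2 (abs_nonneg θ2)
          linarith
    have hall : ∀ i : Fin 3, |(y i : ℝ)| ≤ N := by
      intro i
      fin_cases i
      · exact d0.trans (by linarith)
      · exact d1.trans (by linarith)
      · exact d2.trans (by linarith)
    rw [Set.mem_Icc]
    constructor
    · intro i
      have := (abs_le.mp (hall i)).1
      exact_mod_cast this
    · intro i
      have := (abs_le.mp (hall i)).2
      exact_mod_cast this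
  · -- nonvanishing
    intro y hy hL
    apply hy
    rw [lin_apply] at hL
    obtain ⟨h0, h1, h2⟩ := hind (y 0) (y 1) (y 2) (by linarith)
    funext i
    fin_cases i
    · exact h0
    · exact h1
    · exact h2
  · -- determinant
    intro y1 y2 y3 hne
    set n : ℤ := y1 0 * (y2 1 * y3 2 - y3 1 * y2 2) - y2 0 * (y1 1 * y3 2 - y3 1 * y1 2)
      + y3 0 * (y1 1 * y2 2 - y2 1 * y1 2) with hn
    have e : lin 1 θ1 θ2 y1 * (lin 0 p1 q1 y2 * lin 0 p2 q2 y3 - lin 0 p1 q1 y3 * lin 0 p2 q2 y2)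
        - lin 1 θ1 θ2 y2 * (lin 0 p1 q1 y1 * lin 0 p2 q2 y3 - lin 0 p1 q1 y3 * lin 0 p2 q2 y1)
        + lin 1 θ1 θ2 y3 * (lin 0 p1 q1 y1 * lin 0 p2 q2 y2 - lin 0 p1 q1 y2 * lin 0 p2 q2 y1)
        = Δ * n := by
      rw [hn, hΔdef]
      simp only [lin_apply]
      push_cast
      ring
    rw [e] at hne ⊢
    have hn0 : n ≠ 0 := by
      intro h0
      rw [h0] at hne
      simp at hne
    have hn1 : (1 : ℝ) ≤ |(n : ℝ)| := by
      have : 1 ≤ |n| := Int.one_le_abs hn0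
      exact_mod_cast this
    rw [abs_mul]
    have h1 : 1 ≤ K * |Δ| := by
      have : 1 / |Δ| ≤ K := by linarith
      calc 1 = 1 / |Δ| * |Δ| := by field_simp
        _ ≤ K * |Δ| := by gcongr
    calc 1 ≤ K * |Δ| := h1
      _ = K * |Δ| * 1 := by ring
      _ ≤ K * |Δ| * |(n : ℝ)| := by gcongr
      _ = K * (|Δ| * |(n : ℝ)|) := by ring
  · -- wedge
    intro y1 y2 hD hsmall
    have hx : (y1 1 * y2 2 - y2 1 * y1 2 : ℤ) = 0 := by
      have e : lin 0 p1 q1 y1 * lin 0 p2 q2 y2 - lin 0 p1 q1 y2 * lin 0 p2 q2 y1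
          = Δ * ((y1 1 * y2 2 - y2 1 * y1 2 : ℤ) : ℝ) := by
        rw [hΔdef]
        simp only [lin_apply]
        push_cast
        ring
      rw [e] at hD
      rcases mul_eq_zero.mp hD with h | h
      · exact absurd h hΔ
      · exact_mod_cast h
    have hxR : ((y1 1 : ℝ) * y2 2 - y2 1 * y1 2) = 0 := by exact_mod_cast hx
    obtain ⟨c11, c12⟩ := coord y1
    obtain ⟨c21, c22⟩ := coord y2
    have hMK : M ≤ K := by linarith
    have hL1 := abs_nonneg (lin 1 θ1 θ2 y1)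
    have hL2 := abs_nonneg (lin 1 θ1 θ2 y2)
    have hh1 : 0 ≤ max |lin 0 p1 q1 y1| |lin 0 p2 q2 y1| := (abs_nonneg _).trans (le_max_left _ _)
    have hh2 : 0 ≤ max |lin 0 p1 q1 y2| |lin 0 p2 q2 y2| := (abs_nonneg _).trans (le_max_left _ _)
    have bound : ∀ s t : ℝ, |s| ≤ M * max |lin 0 p1 q1 y1| |lin 0 p2 q2 y1| →
        |t| ≤ M * max |lin 0 p1 q1 y2| |lin 0 p2 q2 y2| →
        |lin 1 θ1 θ2 y1 * t - lin 1 θ1 θ2 y2 * s| < 1 := by
      intro s t hs ht
      refine lt_of_le_of_lt ?_ hsmall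
      calc _ ≤ |lin 1 θ1 θ2 y1 * t| + |lin 1 θ1 θ2 y2 * s| := abs_sub _ _
        _ = |lin 1 θ1 θ2 y1| * |t| + |lin 1 θ1 θ2 y2| * |s| := by rw [abs_mul, abs_mul]
        _ ≤ |lin 1 θ1 θ2 y1| * (M * max |lin 0 p1 q1 y2| |lin 0 p2 q2 y2|) +
            |lin 1 θ1 θ2 y2| * (M * max |lin 0 p1 q1 y1| |lin 0 p2 q2 y1|) := by gcongr
        _ = M * (|lin 1 θ1 θ2 y1| * max |lin 0 p1 q1 y2| |lin 0 p2 q2 y2| +
            |lin 1 θ1 θ2 y2| * max |lin 0 p1 q1 y1| |lin 0 p2 q2 y1|) := by ring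
        _ ≤ _ := by gcongr
    have intzero : ∀ n : ℤ, |(n : ℝ)| < 1 → n = 0 := by
      intro n hn
      by_contra hne
      have : 1 ≤ |n| := Int.one_le_abs hne
      have : (1 : ℝ) ≤ |(n : ℝ)| := by exact_mod_cast this
      linarith
    have z1 : lin 1 θ1 θ2 y1 * y2 1 - lin 1 θ1 θ2 y2 * y1 1 = 0 := by
      have e : lin 1 θ1 θ2 y1 * y2 1 - lin 1 θ1 θ2 y2 * y1 1 =
          ((y1 0 * y2 1 - y2 0 * y1 1 : ℤ) : ℝ) := by
        rw [lin_apply, lin_apply]
        push_cast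
        linear_combination (-θ2) * hxR
      have h1 := bound _ _ c11 c21
      rw [e] at h1 ⊢
      rw [intzero _ h1]; simp
    have z2 : lin 1 θ1 θ2 y1 * y2 2 - lin 1 θ1 θ2 y2 * y1 2 = 0 := by
      have e : lin 1 θ1 θ2 y1 * y2 2 - lin 1 θ1 θ2 y2 * y1 2 =
          ((y1 0 * y2 2 - y2 0 * y1 2 : ℤ) : ℝ) := by
        rw [lin_apply, lin_apply]
        push_cast
        linear_combination θ1 * hxR
      have h1 := bound _ _ c12 c22
      rw [e] at h1 ⊢
      rw [intzero _ h1]; simp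
    rw [lin_apply 0 p2 q2 y2, lin_apply 0 p2 q2 y1]
    linear_combination p2 * z1 + q2 * z2

lemma distInt_nonneg (t : ℝ) : 0 ≤ distInt t := abs_nonneg _

lemma distInt_le (t : ℝ) (n : ℤ) : distInt t ≤ |n + t| := by
  have := round_le t (-n)
  rw [distInt]
  refine this.trans (le_of_eq ?_)
  push_cast
  congr 1
  ring

lemma exists_min_pos {ι : Type} (T : Set ι) (hT : T.Finite) (f : ι → ℝ) (hf : ∀ x ∈ T, 0 < f x) :
    ∃ δ : ℝ, 0 < δ ∧ ∀ x ∈ T, δ ≤ f x := by
  induction T, hT using Set.Finite.induction_on with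
  | empty => exact ⟨1, one_pos, fun x hx => absurd hx (Set.notMem_empty x)⟩
  | @insert a T _ _ ih =>
    obtain ⟨δ, hδ, h⟩ := ih (fun x hx => hf x (Set.mem_insert_of_mem _ hx))
    refine ⟨min δ (f a), lt_min hδ (hf a (Set.mem_insert _ _)), ?_⟩
    intro x hx
    rcases Set.mem_insert_iff.mp hx with rfl | hx
    · exact min_le_right _ _
    · exact (min_le_left _ _).trans (h x hx)

/-- **Lower bound.** -/
theorem admits_of_lt {ρ σ β s : ℝ} (hc : Curve ρ σ β) (hρ : 1 < ρ) (hs : s < σ) :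
    Admits ρ 0 s := by
  intro θ1 θ2 hlin L
  have hind : ∀ a b c : ℤ, (a : ℝ) + b * θ1 + c * θ2 = 0 → a = 0 ∧ b = 0 ∧ c = 0 := by
    intro a b c habc
    rw [Fintype.linearIndependent_iff] at hlin
    have h1 := hlin ![a, b, c] (by
      simp only [Fin.sum_univ_three, Matrix.cons_val_zero, Matrix.cons_val_one, Matrix.cons_val,
        zsmul_eq_mul, mul_one]
      exact habc)
    exact ⟨h1 0, h1 1, h1 2⟩
  refine ⟨1, one_pos, ?_⟩
  by_contra hfin
  rw [Set.not_infinite] at hfin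
  -- coefficients of the inverse map
  set P := L.symm (1, 0) with hP
  set Q := L.symm (0, 1) with hQ
  have hsymm : ∀ a b : ℝ, L.symm (a, b) = (P.1 * a + Q.1 * b, P.2 * a + Q.2 * b) := by
    intro a b
    have e : ((a, b) : ℝ × ℝ) = a • ((1, 0) : ℝ × ℝ) + b • ((0, 1) : ℝ × ℝ) := by
      ext <;> simp
    rw [e, map_add, map_smul, map_smul, ← hP, ← hQ]
    ext
    · simp; ring
    · simp; ring
  have hΔ : P.1 * Q.2 - Q.1 * P.2 ≠ 0 := by
    intro h0
    -- `L.symm` would not be injective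
    by_cases hz : P = 0
    · have : ((1, 0) : ℝ × ℝ) = 0 := by
        apply L.symm.injective
        rw [← hP, hz, map_zero]
      simp at this
    · by_cases h2 : P.1 = 0
      · have h3 : P.2 ≠ 0 := fun h3 => hz (by ext <;> simp [h2, h3])
        have h4 : Q.1 = 0 := by
          rw [h2, zero_mul, zero_sub, neg_eq_zero, mul_eq_zero] at h0
          exact h0.resolve_right h3
        have h5 : L.symm (-Q.2, P.2) = L.symm (0, 0) := by
          rw [hsymm, hsymm, h2, h4]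
          ext
          · simp
          · simp; ring
        have h6 := L.symm.injective h5
        rw [Prod.mk.injEq] at h6
        exact h3 h6.2
      · have h5 : L.symm (-Q.1, P.1) = L.symm (0, 0) := by
          rw [hsymm, hsymm]
          ext
          · simp; ring
          · simp; linarith
        have h6 := L.symm.injective h5
        rw [Prod.mk.injEq] at h6
        exact h2 h6.2
  obtain ⟨G, hu, hv, hL, M, hM1, hM⟩ := exists_geo P.1 Q.1 P.2 Q.2 θ1 θ2 hΔ hind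
  set T : Set (ℤ × ℤ) := {x : ℤ × ℤ | ((x.1 : ℝ), (x.2 : ℝ)) ∈ L '' Phi0 ρ 0 ∧
        distInt (θ1 * x.1 + θ2 * x.2) ≤ 1 * (max |(x.1 : ℝ)| |(x.2 : ℝ)|) ^ (-s)} with hT
  -- positivity on the exceptional set
  have hposd : ∀ x ∈ T \ {0}, 0 < distInt (θ1 * x.1 + θ2 * x.2) := by
    rintro x ⟨_, hx0⟩
    rcases lt_or_eq_of_le (distInt_nonneg (θ1 * x.1 + θ2 * x.2)) with h | h
    · exact h
    · exfalso
      have h1 : θ1 * x.1 + θ2 * x.2 - round (θ1 * x.1 + θ2 * x.2) = 0 := abs_eq_zero.mp h.symm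
      obtain ⟨_, h2, h3⟩ := hind (-round (θ1 * x.1 + θ2 * x.2)) x.1 x.2 (by push_cast; linarith)
      exact hx0 (Prod.ext h2 h3)
  obtain ⟨δ, hδ, hδT⟩ := exists_min_pos (T \ {0}) (hfin.subset Set.sdiff_subset)
    (fun x => distInt (θ1 * x.1 + θ2 * x.2)) hposd
  -- the exponent
  have hσ1 := hc.hs1
  have hσ2 := hc.hs2
  obtain ⟨s', hs'⟩ : ∃ s', s' = (max s 1 + σ) / 2 := ⟨_, rfl⟩
  have hmax : max s 1 < σ := max_lt hs hσ1
  have hs1 : s ≤ max s 1 := le_max_left _ _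
  have hs2 : 1 ≤ max s 1 := le_max_right _ _
  have hs'1 : s < s' := by linarith
  have hs'2 : 1 < s' := by linarith
  have hs'3 : s' < σ := by linarith
  have hMpow : 0 < M ^ (-s') := rpow_pos_of_pos (by linarith) _
  obtain ⟨c0, hc0⟩ : ∃ c0, c0 = min (min 1 δ) (M ^ (-s')) := ⟨_, rfl⟩
  have hc0pos : 0 < c0 := by rw [hc0]; exact lt_min (lt_min one_pos hδ) hMpow
  have hfail : Fail G ρ s' c0 := by
    refine ⟨hρ, hs'2, by linarith, hc0pos, ?_⟩
    intro y hy hdom
    have hmx : 1 ≤ max 1 (G.H y) := le_max_left _ _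
    have hpw1 : (max 1 (G.H y)) ^ (-s') ≤ 1 := rpow_le_one_of_one_le_of_nonpos hmx (by linarith)
    have hpw0 : 0 < (max 1 (G.H y)) ^ (-s') := rpow_pos_of_pos (by linarith) _
    by_cases hx : y 1 = 0 ∧ y 2 = 0
    · -- a point on the first axis
      have hy0 : y 0 ≠ 0 := by
        intro h0
        apply hy
        funext i
        fin_cases i
        · exact h0
        · exact hx.1
        · exact hx.2
      have h1 : (1 : ℝ) ≤ |G.L y| := by
        rw [hL, lin_apply, hx.1, hx.2]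
        have : 1 ≤ |y 0| := Int.one_le_abs hy0
        have h2 : (1 : ℝ) ≤ |(y 0 : ℝ)| := by exact_mod_cast this
        simpa using h2
      have h2 : c0 ≤ 1 := by rw [hc0]; exact (min_le_left _ _).trans (min_le_left _ _)
      calc c0 * (max 1 (G.H y)) ^ (-s') ≤ 1 * 1 := mul_le_mul h2 hpw1 hpw0.le one_pos.le
        _ ≤ |G.L y| := by linarith
    · have hdist : distInt (θ1 * y 1 + θ2 * y 2) ≤ |G.L y| := by
        rw [hL, lin_apply]
        refine (distInt_le (θ1 * y 1 + θ2 * y 2) (y 0)).trans (le_of_eq ?_)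
        congr 1
        ring
      have hxne : ((y 1, y 2) : ℤ × ℤ) ≠ 0 := by
        intro h0
        rw [Prod.mk_eq_zero] at h0
        exact hx h0
      by_cases hyT : ((y 1, y 2) : ℤ × ℤ) ∈ T
      · have h1 := hδT (y 1, y 2) ⟨hyT, hxne⟩
        have h2 : c0 ≤ δ := by rw [hc0]; exact (min_le_left _ _).trans (min_le_right _ _)
        calc c0 * (max 1 (G.H y)) ^ (-s') ≤ δ * 1 := mul_le_mul h2 hpw1 hpw0.le hδ.le
          _ = δ := mul_one _
          _ ≤ _ := h1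
          _ ≤ _ := hdist
      · have hmem : (((y 1 : ℤ) : ℝ), ((y 2 : ℤ) : ℝ)) ∈ L '' Phi0 ρ 0 := by
          refine ⟨L.symm ((y 1 : ℝ), (y 2 : ℝ)), ?_, L.apply_symm_apply _⟩
          rw [hsymm]
          have hu' : P.1 * (y 1 : ℝ) + Q.1 * (y 2 : ℝ) = G.u y := by
            rw [hu, lin_apply]; ring
          have hv' : P.2 * (y 1 : ℝ) + Q.2 * (y 2 : ℝ) = G.v y := by
            rw [hv, lin_apply]; ring
          rw [hu', hv']
          rcases hdom with h | h
          · left; exact h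
          · right
            show |G.u y| ≤ |G.v y| ^ (0 : ℝ)
            rw [rpow_zero]; exact h
        have h1 : (max |(y 1 : ℝ)| |(y 2 : ℝ)|) ^ (-s) < distInt (θ1 * y 1 + θ2 * y 2) := by
          by_contra hcon
          push Not at hcon
          exact hyT ⟨hmem, by rw [one_mul]; exact hcon⟩
        have hn1 : (1 : ℝ) ≤ max |(y 1 : ℝ)| |(y 2 : ℝ)| := by
          by_cases h0 : y 1 = 0
          · have h2 : y 2 ≠ 0 := fun h2 => hx ⟨h0, h2⟩
            have : 1 ≤ |y 2| := Int.one_le_abs h2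
            exact le_trans (by exact_mod_cast this) (le_max_right _ _)
          · have : 1 ≤ |y 1| := Int.one_le_abs h0
            exact le_trans (by exact_mod_cast this) (le_max_left _ _)
        have hn2 : max |(y 1 : ℝ)| |(y 2 : ℝ)| ≤ M * max 1 (G.H y) := by
          have h3 : G.H y ≤ max 1 (G.H y) := le_max_right _ _
          apply max_le
          · exact (hM y).1.trans (by gcongr)
          · exact (hM y).2.trans (by gcongr)
        have h2 : c0 ≤ M ^ (-s') := by rw [hc0]; exact min_le_right _ _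
        calc c0 * (max 1 (G.H y)) ^ (-s') ≤ M ^ (-s') * (max 1 (G.H y)) ^ (-s') := by gcongr
          _ = (M * max 1 (G.H y)) ^ (-s') := by rw [mul_rpow (by linarith) (by linarith)]
          _ ≤ (max |(y 1 : ℝ)| |(y 2 : ℝ)|) ^ (-s') :=
            rpow_le_rpow_of_nonpos (by linarith) hn2 (by linarith)
          _ ≤ (max |(y 1 : ℝ)| |(y 2 : ℝ)|) ^ (-s) :=
            rpow_le_rpow_of_exponent_le hn1 (by linarith)
          _ ≤ distInt (θ1 * y 1 + θ2 * y 2) := h1.le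
          _ ≤ _ := hdist
  exact lower_core G ρ s' σ β c0 hc hfail hs'3

end Pool.Agent.Helper73.TH
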