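import Mathlib
import Pool.Agent.Helper8.Thurn3
import Pool.Agent.Helper73.TH.Defs
import Pool.Agent.Helper73.TH.UDefs
import Pool.Agent.Helper52.TH.P67

set_option autoImplicit false

/-!
Project TH (MP_594f4b_nt, Q2): pieces TH-8 (`exists_data`) and TH-9 (`linIndep`).
-/

namespace Pool.Agent.Helper73.TH

namespace P8

/-- the one-step property -/
def StepProp (P : Par) (t0 : ℝ) : Prop :=
  ∀ t : ℝ, t0 ≤ t → ∀ S : St, Inv P t S →
    ∃ S' : St, ∃ k : ℕ, ∃ v0 v1 v2 : ℤ, Inv P (P.γ * t) S' ∧ Rel P t S S' k v0 v1 v2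

lemma le_time (P : Par) (t : ℝ) (ht : 0 ≤ t) (i : ℕ) : t ≤ P.γ ^ i * t :=
  le_mul_of_one_le_left ht (one_le_pow₀ P.hγ.le)

lemma time_succ (P : Par) (t : ℝ) (i : ℕ) : P.γ * (P.γ ^ i * t) = P.γ ^ (i + 1) * t := by
  ring

lemma exists_seq (P : Par) (t0 : ℝ) (hstep : StepProp P t0) (t : ℝ) (ht : 1 ≤ t) (htt : t0 ≤ t) :
    ∃ S : ℕ → St, ∃ k : ℕ → ℕ, ∃ v0 v1 v2 : ℕ → ℤ, ∀ i, Inv P (P.γ ^ i * t) (S i) ∧
      Rel P (P.γ ^ i * t) (S i) (S (i+1)) (k i) (v0 i) (v1 i) (v2 i) := by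
  classical
  have ht0 : 0 ≤ t := by linarith
  have hTi : ∀ i : ℕ, t0 ≤ P.γ ^ i * t := fun i => htt.trans (le_time P t ht0 i)
  let S0 : St := ⟨0, 1, 0, 1, ⌈Real.exp (P.α * t)⌉, ⌈Real.exp t⌉, 0, 0, -1⟩
  have hS0 : Inv P (P.γ ^ 0 * t) S0 := by
    have hz : S0.z0 = ⌈Real.exp t⌉ := by simp [S0, St.z0]
    have h1 : (1:ℝ) ≤ Real.exp (P.α * t) := Real.one_le_exp (mul_nonneg P.hα0.le ht0)
    have h2 : (1:ℝ) ≤ Real.exp t := Real.one_le_exp ht0
    have h3 := Int.le_ceil (Real.exp (P.α * t))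
    have h4 := (Int.ceil_lt_add_one (Real.exp (P.α * t))).le
    have h5 := Int.le_ceil (Real.exp t)
    have h6 := (Int.ceil_lt_add_one (Real.exp t)).le
    have hγ0 : 0 < P.γ := by linarith [P.hγ]
    rw [pow_zero, one_mul]
    refine ⟨?_, ?_, ?_, ?_, ?_, ?_, ?_, ?_⟩
    · simp [S0, St.dt, St.z0, St.z1, St.z2]
    · exact isCoprime_one_left
    · exact h3
    · show ((⌈Real.exp (P.α * t)⌉ : ℤ) : ℝ) ≤ 2 * Real.exp (P.α * t)
      linarith
    · show Real.exp t ≤ 2 * ((⌈Real.exp t⌉ : ℤ) : ℝ)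
      linarith
    · show ((⌈Real.exp t⌉ : ℤ) : ℝ) ≤ 20 * Real.exp t
      linarith
    · rw [hz]
      exact Int.ceil_pos.mpr (by linarith)
    · rw [hz]
      have h7 : Real.exp t ≤ Real.exp ((1 + P.α / P.γ) * t) := by
        apply Real.exp_le_exp.mpr
        have : 0 ≤ P.α / P.γ * t := mul_nonneg (div_nonneg P.hα0.le hγ0.le) ht0
        nlinarith
      linarith
  let f : ℕ → St := fun i => Nat.rec S0
    (fun i S => if h : Inv P (P.γ ^ i * t) S then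
      Classical.choose (hstep _ (hTi i) S h) else S) i
  have hf0 : f 0 = S0 := rfl
  have hfs : ∀ i, f (i+1) = if h : Inv P (P.γ ^ i * t) (f i) then
      Classical.choose (hstep _ (hTi i) (f i) h) else f i := fun i => rfl
  have hinv : ∀ i, Inv P (P.γ ^ i * t) (f i) := by
    intro i
    induction i with
    | zero => rw [hf0]; exact hS0
    | succ i ih =>
      rw [hfs i, dif_pos ih]
      obtain ⟨k, v0, v1, v2, h1, h2⟩ := Classical.choose_spec (hstep _ (hTi i) (f i) ih)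
      rw [← time_succ]
      exact h1
  have hrel : ∀ i, ∃ k : ℕ, ∃ v0 v1 v2 : ℤ,
      Rel P (P.γ ^ i * t) (f i) (f (i+1)) k v0 v1 v2 := by
    intro i
    rw [hfs i, dif_pos (hinv i)]
    obtain ⟨k, v0, v1, v2, h1, h2⟩ := Classical.choose_spec (hstep _ (hTi i) (f i) (hinv i))
    exact ⟨k, v0, v1, v2, h2⟩
  choose k v0 v1 v2 hr using hrel
  exact ⟨f, k, v0, v1, v2, fun i => ⟨hinv i, hr i⟩⟩

/-- the data from the one-step property -/
theorem exists_data_of (P : Par) (t0 : ℝ) (hstep : StepProp P t0) : Nonempty (Data P) := by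
  have hα0 := P.hα0
  have hα1 := P.hα1
  have hγ := P.hγ
  have hγ0 : 0 < P.γ := by linarith
  have hdiv : 0 < P.α / P.γ := div_pos hα0 hγ0
  have hκ := P.hκ
  have hm := P.hm
  have hκ1 : 0 < P.κ - 1 := by linarith
  have hκγ : 0 < (P.κ - 1) * (P.γ - 1) := mul_pos hκ1 (by linarith)
  set t : ℝ := max (max 1 t0) (max (Real.log 16 / P.α) (Real.log 2 / ((P.κ - 1) * (P.γ - 1))))
    with htdef
  have ht1 : 1 ≤ t := (le_max_left _ _).trans (le_max_left _ _)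
  have ht0 : t0 ≤ t := (le_max_right _ _).trans (le_max_left _ _)
  have ht16 : Real.log 16 ≤ P.α * t := by
    have : Real.log 16 / P.α ≤ t := (le_max_left _ _).trans (le_max_right _ _)
    rw [div_le_iff₀ hα0] at this
    linarith
  have ht2 : Real.log 2 ≤ (P.κ - 1) * (P.γ - 1) * t := by
    have : Real.log 2 / ((P.κ - 1) * (P.γ - 1)) ≤ t := (le_max_right _ _).trans (le_max_right _ _)
    rw [div_le_iff₀ hκγ] at this
    linarith
  clear_value t
  obtain ⟨S, k, v0, v1, v2, h⟩ := exists_seq P t0 hstep t ht1 ht0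
  have htn : 0 ≤ t := by linarith
  have hT : ∀ i : ℕ, t ≤ P.γ ^ i * t := fun i => le_time P t htn i
  have hD : ∀ i, 0 < (S i).z0 := fun i => (h i).1.zl
  have hmono : ∀ i, (S i).z0 ≤ (S (i+1)).z0 := by
    intro i
    have h1 := (h i).1.zu
    have h2 := (h i).2.Dl
    have h3 : 16 * Real.exp ((1 + P.α / P.γ) * (P.γ ^ i * t)) ≤
        Real.exp ((P.γ + P.α) * (P.γ ^ i * t)) := by
      have e16 : (16:ℝ) = Real.exp (Real.log 16) := (Real.exp_log (by norm_num)).symm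
      rw [e16, ← Real.exp_add]
      apply Real.exp_le_exp.mpr
      have hTi := hT i
      generalize P.γ ^ i * t = T at *
      have : P.α * t ≤ P.α * T := mul_le_mul_of_nonneg_left hTi hα0.le
      have h5 : (1 + P.α / P.γ + P.α) * T ≤ (P.γ + P.α) * T :=
        mul_le_mul_of_nonneg_right (by linarith) (by linarith)
      nlinarith
    have h4 : ((S i).z0 : ℝ) ≤ ((S (i+1)).z0 : ℝ) := by linarith
    exact_mod_cast h4
  have hδ0 : ∀ i : ℕ, 0 ≤ 80 * Real.exp (-((P.κ - 1) * (P.γ ^ i * t))) := fun i => by positivity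
  have hδ : ∀ i : ℕ, 2 * (80 * Real.exp (-((P.κ - 1) * (P.γ ^ (i+1) * t)))) ≤
      80 * Real.exp (-((P.κ - 1) * (P.γ ^ i * t))) := by
    intro i
    have h3 : 2 * Real.exp (-((P.κ - 1) * (P.γ ^ (i+1) * t))) ≤
        Real.exp (-((P.κ - 1) * (P.γ ^ i * t))) := by
      have e2 : (2:ℝ) = Real.exp (Real.log 2) := (Real.exp_log (by norm_num)).symm
      rw [e2, ← Real.exp_add]
      apply Real.exp_le_exp.mpr
      rw [← time_succ]
      have hTi := hT i
      generalize P.γ ^ i * t = T at *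
      have : (P.κ - 1) * (P.γ - 1) * t ≤ (P.κ - 1) * (P.γ - 1) * T :=
        mul_le_mul_of_nonneg_left hTi hκγ.le
      nlinarith
    linarith
  have hcommon : ∀ i : ℕ, 80 * Real.exp ((P.γ + P.α - P.κ) * (P.γ ^ i * t) + (P.γ ^ i * t)) ≤
      80 * Real.exp (-((P.κ - 1) * (P.γ ^ i * t))) * (S (i+1)).z0 := by
    intro i
    have h2 := (h i).2.Dl
    have h3 : Real.exp ((P.γ + P.α - P.κ) * (P.γ ^ i * t) + (P.γ ^ i * t)) =
        Real.exp (-((P.κ - 1) * (P.γ ^ i * t))) * Real.exp ((P.γ + P.α) * (P.γ ^ i * t)) := by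
      rw [← Real.exp_add]; congr 1; ring
    rw [h3]
    have h4 : 0 < Real.exp (-((P.κ - 1) * (P.γ ^ i * t))) := Real.exp_pos _
    have := mul_le_mul_of_nonneg_left h2 h4.le
    linarith
  have hz1 : ∀ i, |(((S i).z0 * (S (i+1)).z1 - (S (i+1)).z0 * (S i).z1 : ℤ) : ℝ)| ≤
      80 * Real.exp (-((P.κ - 1) * (P.γ ^ i * t))) * (S (i+1)).z0 := by
    intro i
    refine le_trans ?_ (hcommon i)
    obtain ⟨hI, hR⟩ := h i
    have e : (S i).z0 * (S (i+1)).z1 - (S (i+1)).z0 * (S i).z1 = Nat.fib (k i + 1) * (S i).b2 := by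
      rw [hR.z1, hR.z0, ← hR.zv2]; ring
    have hb2 : (0:ℝ) ≤ (S i).b2 := by
      have := hI.b2l
      have := Real.exp_pos (P.γ ^ i * t)
      linarith
    have hint : (Nat.fib (k i + 1) : ℝ) * (S i).b2 ≤
        80 * Real.exp ((P.γ + P.α - P.κ) * (P.γ ^ i * t) + (P.γ ^ i * t)) := by
      calc (Nat.fib (k i + 1) : ℝ) * (S i).b2 ≤
            (4 * Real.exp ((P.γ + P.α - P.κ) * (P.γ ^ i * t))) * (20 * Real.exp (P.γ ^ i * t)) := by
            apply mul_le_mul hR.nu hI.b2u hb2 (by positivity)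
        _ = _ := by rw [Real.exp_add]; ring
    rw [e]
    push_cast
    rw [abs_of_nonneg (mul_nonneg (by positivity) hb2)]
    exact hint
  have hz2 : ∀ i, |(((S i).z0 * (S (i+1)).z2 - (S (i+1)).z0 * (S i).z2 : ℤ) : ℝ)| ≤
      80 * Real.exp (-((P.κ - 1) * (P.γ ^ i * t))) * (S (i+1)).z0 := by
    intro i
    refine le_trans ?_ (hcommon i)
    obtain ⟨hI, hR⟩ := h i
    have e : (S i).z0 * (S (i+1)).z2 - (S (i+1)).z0 * (S i).z2 =
        - (Nat.fib (k i + 1) * (S i).b1) := by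
      rw [hR.z2, hR.z0, ← hR.zv1]; ring
    have hb1 : (0:ℝ) ≤ (S i).b1 := by
      have := hI.b1l
      have := Real.exp_pos (P.α * (P.γ ^ i * t))
      linarith
    have hint : (Nat.fib (k i + 1) : ℝ) * (S i).b1 ≤
        80 * Real.exp ((P.γ + P.α - P.κ) * (P.γ ^ i * t) + (P.γ ^ i * t)) := by
      have h7 : Real.exp (P.α * (P.γ ^ i * t)) ≤ Real.exp (P.γ ^ i * t) := by
        apply Real.exp_le_exp.mpr
        have hTi := hT i
        exact mul_le_of_le_one_left (by linarith) hα1.le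
      calc (Nat.fib (k i + 1) : ℝ) * (S i).b1 ≤
            (4 * Real.exp ((P.γ + P.α - P.κ) * (P.γ ^ i * t))) *
              (2 * Real.exp (P.α * (P.γ ^ i * t))) := by
            apply mul_le_mul hR.nu hI.b1u hb1 (by positivity)
        _ ≤ (4 * Real.exp ((P.γ + P.α - P.κ) * (P.γ ^ i * t))) *
              (2 * Real.exp (P.γ ^ i * t)) := by
            apply mul_le_mul_of_nonneg_left _ (by positivity)
            linarith
        _ ≤ _ := by
            rw [Real.exp_add]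
            have : 0 < Real.exp ((P.γ + P.α - P.κ) * (P.γ ^ i * t)) * Real.exp (P.γ ^ i * t) := by
              positivity
            linarith
    rw [e]
    push_cast
    rw [abs_neg, abs_of_nonneg (mul_nonneg (by positivity) hb1)]
    exact hint
  obtain ⟨θ1, hθ1⟩ := Pool.Agent.Helper8.Thurn.exists_limit (fun i => (S i).z0)
    (fun i => (S i).z1) _ hD hmono hδ hδ0 hz1
  obtain ⟨θ2, hθ2⟩ := Pool.Agent.Helper8.Thurn.exists_limit (fun i => (S i).z0)
    (fun i => (S i).z2) _ hD hmono hδ hδ0 hz2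
  refine ⟨⟨t, ht1, S, k, v0, v1, v2, fun i => (h i).1, fun i => (h i).2, θ1, θ2, ?_, ?_⟩⟩
  · intro i
    refine (hθ1 i).trans (le_of_eq ?_)
    ring
  · intro i
    refine (hθ2 i).trans (le_of_eq ?_)
    ring

lemma z_est {P : Par} (d : Data P) (i : ℕ) (y0 y1 y2 : ℤ) :
    |(((d.S i).z0 * y0 + (d.S i).z1 * y1 + (d.S i).z2 * y2 : ℤ) : ℝ) - (d.S i).z0 * d.L y0 y1 y2|
      ≤ 320 * nrm y1 y2 * Real.exp (-((P.κ - 1) * (P.γ ^ i * d.t))) := by
  have e : (((d.S i).z0 * y0 + (d.S i).z1 * y1 + (d.S i).z2 * y2 : ℤ) : ℝ) -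
      (d.S i).z0 * d.L y0 y1 y2 = (((d.S i).z1 : ℝ) - (d.S i).z0 * d.θ1) * y1 +
        (((d.S i).z2 : ℝ) - (d.S i).z0 * d.θ2) * y2 := by
    rw [Data.L]; push_cast; ring
  rw [e]
  have h1 : |(y1:ℝ)| ≤ nrm y1 y2 := le_max_left _ _
  have h2 : |(y2:ℝ)| ≤ nrm y1 y2 := le_max_right _ _
  calc _ ≤ |(((d.S i).z1 : ℝ) - (d.S i).z0 * d.θ1) * y1| +
        |(((d.S i).z2 : ℝ) - (d.S i).z0 * d.θ2) * y2| := abs_add_le _ _
    _ ≤ 160 * Real.exp (-((P.κ - 1) * (P.γ ^ i * d.t))) * nrm y1 y2 +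
        160 * Real.exp (-((P.κ - 1) * (P.γ ^ i * d.t))) * nrm y1 y2 := by
        rw [abs_mul, abs_mul]
        gcongr
        · exact d.e1 i
        · exact d.e2 i
    _ = _ := by ring

lemma exists_time {P : Par} (d : Data P) (C : ℝ) : ∃ i : ℕ, ∀ j : ℕ, i ≤ j →
    C < P.γ ^ j * d.t := by
  obtain ⟨n, hn⟩ := pow_unbounded_of_one_lt C P.hγ
  refine ⟨n, fun j hj => ?_⟩
  have ht := d.ht
  have h1 : P.γ ^ n ≤ P.γ ^ j := pow_le_pow_right₀ P.hγ.le hj
  have h2 : 0 < P.γ ^ j := pow_pos (by linarith [P.hγ]) _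
  nlinarith

end P8

/-! ### TH-8: the data -/

theorem exists_data (P : Par) : Nonempty (Data P) := by
  obtain ⟨t0, h⟩ := Pool.Agent.Helper73.TH.step P
  exact P8.exists_data_of P t0 h

/-! ### TH-9: linear independence -/

theorem linIndep {P : Par} (d : Data P) : LinearIndependent ℤ ![(1 : ℝ), d.θ1, d.θ2] := by
  rw [Fintype.linearIndependent_iff]
  intro g hg
  rw [Fin.sum_univ_three] at hg
  simp only [Matrix.cons_val_zero, Matrix.cons_val_one, Matrix.cons_val_two,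
    zsmul_eq_mul, mul_one, Matrix.head_cons, Matrix.tail_cons] at hg
  obtain ⟨y0, hy0⟩ : ∃ y, y = g 0 := ⟨_, rfl⟩
  obtain ⟨y1, hy1⟩ : ∃ y, y = g 1 := ⟨_, rfl⟩
  obtain ⟨y2, hy2⟩ : ∃ y, y = g 2 := ⟨_, rfl⟩
  have hL : d.L y0 y1 y2 = 0 := by
    rw [Data.L, hy0, hy1, hy2]
    have : (![(1 : ℝ), d.θ1, d.θ2] 2) = d.θ2 := rfl
    linarith
  have hα0 := P.hα0
  have hα1 := P.hα1
  have hγ := P.hγ
  have hγ0 : 0 < P.γ := by linarith
  have hdiv : 0 < P.α / P.γ := div_pos hα0 hγ0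
  have hκ1 : 0 < P.κ - 1 := by linarith [P.hκ]
  have hn0 : 0 ≤ nrm y1 y2 := le_trans (abs_nonneg _) (le_max_left _ _)
  have hy1n : |(y1:ℝ)| ≤ nrm y1 y2 := le_max_left _ _
  -- choose a large index
  obtain ⟨i, hi⟩ := P8.exists_time d
    (max (Real.log (320 * nrm y1 y2 + 1) / (P.κ - 1)) (Real.log (nrm y1 y2 + 1) / P.α))
  have hz : ∀ j, i ≤ j → (d.S j).z0 * y0 + (d.S j).z1 * y1 + (d.S j).z2 * y2 = 0 := by
    intro j hj
    have h1 := P8.z_est d j y0 y1 y2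
    rw [hL, mul_zero, sub_zero] at h1
    have h2 : 320 * nrm y1 y2 * Real.exp (-((P.κ - 1) * (P.γ ^ j * d.t))) < 1 := by
      have h3 := lt_of_le_of_lt (le_max_left _ _) (hi j hj)
      rw [div_lt_iff₀ hκ1] at h3
      have h4 : 320 * nrm y1 y2 + 1 < Real.exp ((P.κ - 1) * (P.γ ^ j * d.t)) := by
        rw [← Real.log_lt_iff_lt_exp (by positivity)]
        linarith
      rw [Real.exp_neg]
      have h5 : 0 < Real.exp ((P.κ - 1) * (P.γ ^ j * d.t)) := Real.exp_pos _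
      rw [← div_eq_mul_inv, div_lt_one h5]
      linarith
    have h4 := lt_of_le_of_lt h1 h2
    by_contra h5
    have : 1 ≤ |(d.S j).z0 * y0 + (d.S j).z1 * y1 + (d.S j).z2 * y2| := Int.one_le_abs h5
    have h6 : (1:ℝ) ≤ |(((d.S j).z0 * y0 + (d.S j).z1 * y1 + (d.S j).z2 * y2 : ℤ) : ℝ)| := by
      exact_mod_cast this
    linarith
  have hzi := hz i le_rfl
  have hzi1 := hz (i+1) (by omega)
  have hR := d.rel i
  have hI := d.inv i
  -- `v · y = 0`
  have hv : d.v0 i * y0 + d.v1 i * y1 + d.v2 i * y2 = 0 := by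
    rw [hR.z0, hR.z1, hR.z2] at hzi1
    have e : (Nat.fib (d.k i + 1) : ℤ) * (d.v0 i * y0 + d.v1 i * y1 + d.v2 i * y2) = 0 := by
      linear_combination hzi1 - (Nat.fib (d.k i) : ℤ) * hzi
    have hf : (Nat.fib (d.k i + 1) : ℤ) ≠ 0 := by
      have : 0 < Nat.fib (d.k i + 1) := Nat.fib_pos.mpr (Nat.succ_pos _)
      exact_mod_cast this.ne'
    exact (mul_eq_zero.mp e).resolve_left hf
  -- coordinates in the basis
  set S := d.S i with hS
  have hdet : S.dt = 1 := hI.det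
  have hdet2 : (S.a1 * S.b2 - S.a2 * S.b1) * S.c0 + (S.a2 * S.b0 - S.a0 * S.b2) * S.c1
      + (S.a0 * S.b1 - S.a1 * S.b0) * S.c2 = 1 := hdet
  have hzy : (S.a1 * S.b2 - S.a2 * S.b1) * y0 + (S.a2 * S.b0 - S.a0 * S.b2) * y1
      + (S.a0 * S.b1 - S.a1 * S.b0) * y2 = 0 := hzi
  obtain ⟨a, ha⟩ : ∃ a : ℤ, a = (S.b1 * S.c2 - S.b2 * S.c1) * y0 + (S.b2 * S.c0 - S.b0 * S.c2) * y1
      + (S.b0 * S.c1 - S.b1 * S.c0) * y2 := ⟨_, rfl⟩
  obtain ⟨b, hb⟩ : ∃ b : ℤ, b = (S.c1 * S.a2 - S.c2 * S.a1) * y0 + (S.c2 * S.a0 - S.c0 * S.a2) * y1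
      + (S.c0 * S.a1 - S.c1 * S.a0) * y2 := ⟨_, rfl⟩
  have hy0' : y0 = a * S.a0 + b * S.b0 := by
    rw [ha, hb]
    linear_combination (-y0) * hdet2 + S.c0 * hzy
  have hy1' : y1 = a * S.a1 + b * S.b1 := by
    rw [ha, hb]
    linear_combination (-y1) * hdet2 + S.c1 * hzy
  have hy2' : y2 = a * S.a2 + b * S.b2 := by
    rw [ha, hb]
    linear_combination (-y2) * hdet2 + S.c2 * hzy
  have ha0 : a = 0 := by
    have e : d.v0 i * y0 + d.v1 i * y1 + d.v2 i * y2 = a := by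
      have e1 := hR.va
      have e2 := hR.vb
      rw [hy0', hy1', hy2']
      linear_combination a * e1 + b * e2
    rw [← e]; exact hv
  rw [ha0] at hy0' hy1' hy2'
  simp only [zero_mul, zero_add] at hy0' hy1' hy2'
  have hb0 : b = 0 := by
    by_contra hb0
    have h1 : 1 ≤ |b| := Int.one_le_abs hb0
    have h1' : (1:ℝ) ≤ |(b:ℝ)| := by exact_mod_cast h1
    have h2 : Real.exp (P.α * (P.γ ^ i * d.t)) ≤ |(y1:ℝ)| := by
      rw [hy1']
      push_cast
      rw [abs_mul]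
      have h3 := hI.b1l
      have h4 : (S.b1:ℝ) ≤ |(S.b1:ℝ)| := le_abs_self _
      have h5 : 0 ≤ |(S.b1:ℝ)| := abs_nonneg _
      nlinarith
    have h3 := lt_of_le_of_lt (le_max_right _ _) (hi i le_rfl)
    rw [div_lt_iff₀ hα0] at h3
    have h4 : nrm y1 y2 + 1 < Real.exp (P.α * (P.γ ^ i * d.t)) := by
      rw [← Real.log_lt_iff_lt_exp (by positivity)]
      linarith
    linarith
  rw [hb0] at hy0' hy1' hy2'
  simp only [zero_mul] at hy0' hy1' hy2'
  intro j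
  fin_cases j
  · show g 0 = 0
    rw [← hy0, hy0']
  · show g 1 = 0
    rw [← hy1, hy1']
  · show g 2 = 0
    rw [← hy2, hy2']

end Pool.Agent.Helper73.TH
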