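import Mathlib
import Pool.Agent.Helper73.TH.Defs
import Pool.Agent.Helper73.TH.UDefs
import Pool.Agent.Helper73.TH.P8
import Pool.Agent.Helper61.TH.P10
import Pool.Agent.Helper93.TH.P12
import Pool.Agent.Helper8.Thurn1

set_option autoImplicit false

/-!
Project TH (MP_594f4b_nt, Q2): pieces TH-13 (`key`) and TH-14 (`not_admits_of_par`).
-/

namespace Pool.Agent.Helper73.TH

namespace P13

lemma nrm_nonneg (y1 y2 : ℤ) : 0 ≤ nrm y1 y2 := le_trans (abs_nonneg _) (le_max_left _ _)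

lemma γpos (P : Par) : 0 < P.γ := lt_trans one_pos P.hγ

lemma κ1 (P : Par) : 1 < P.κ := by
  have h1 := P.hκ
  have h2 : 0 < P.α / P.γ := div_pos P.hα0 (γpos P)
  have h3 := P.hα0
  linarith

/-- the time of the state number `i` -/
noncomputable def T {P : Par} (d : Data P) (i : ℕ) : ℝ := P.γ ^ i * d.t

lemma T_def {P : Par} (d : Data P) (i : ℕ) : P.γ ^ i * d.t = T d i := rfl

lemma T_succ {P : Par} (d : Data P) (i : ℕ) : T d (i + 1) = P.γ * T d i := by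
  rw [T, T, pow_succ]; ring

lemma T_pos {P : Par} (d : Data P) (i : ℕ) : 0 < T d i :=
  mul_pos (pow_pos (γpos P) i) (lt_of_lt_of_le one_pos d.ht)

lemma T_le_succ {P : Par} (d : Data P) (i : ℕ) : T d i ≤ T d (i + 1) := by
  rw [T_succ]
  have h1 := T_pos d i
  have h2 := P.hγ
  nlinarith

lemma T_mono {P : Par} (d : Data P) {i j : ℕ} (h : i ≤ j) : T d i ≤ T d j :=
  monotone_nat_of_le_succ (T_le_succ d) h

lemma T_unbounded {P : Par} (d : Data P) (C : ℝ) : ∃ i : ℕ, C < T d i := by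
  obtain ⟨n, hn⟩ := pow_unbounded_of_one_lt C P.hγ
  refine ⟨n, hn.trans_le ?_⟩
  rw [T]
  exact le_mul_of_one_le_right (pow_pos (γpos P) n).le d.ht

/-- the normal vector number `i` at the point `y` -/
def zy {P : Par} (d : Data P) (i : ℕ) (y0 y1 y2 : ℤ) : ℤ :=
  (d.S i).z0 * y0 + (d.S i).z1 * y1 + (d.S i).z2 * y2

lemma z_est {P : Par} (d : Data P) (i : ℕ) (y0 y1 y2 : ℤ) :
    |((zy d i y0 y1 y2 : ℤ) : ℝ) - (d.S i).z0 * d.L y0 y1 y2|
      ≤ 320 * nrm y1 y2 * Real.exp (-((P.κ - 1) * T d i)) := by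
  have e : ((zy d i y0 y1 y2 : ℤ) : ℝ) -
      (d.S i).z0 * d.L y0 y1 y2 = (((d.S i).z1 : ℝ) - (d.S i).z0 * d.θ1) * y1 +
        (((d.S i).z2 : ℝ) - (d.S i).z0 * d.θ2) * y2 := by
    rw [Data.L, zy]; push_cast; ring
  rw [e]
  have h1 : |(y1:ℝ)| ≤ nrm y1 y2 := le_max_left _ _
  have h2 : |(y2:ℝ)| ≤ nrm y1 y2 := le_max_right _ _
  have E1 := d.e1 i
  have E2 := d.e2 i
  rw [T_def] at E1 E2
  calc _ ≤ |(((d.S i).z1 : ℝ) - (d.S i).z0 * d.θ1) * y1| +
        |(((d.S i).z2 : ℝ) - (d.S i).z0 * d.θ2) * y2| := abs_add_le _ _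
    _ ≤ 160 * Real.exp (-((P.κ - 1) * T d i)) * nrm y1 y2 +
        160 * Real.exp (-((P.κ - 1) * T d i)) * nrm y1 y2 := by
        rw [abs_mul, abs_mul]
        gcongr
    _ = _ := by ring

lemma half_of {P : Par} (d : Data P) (i : ℕ) (y1 y2 : ℤ)
    (hX : 640 * nrm y1 y2 ≤ Real.exp ((P.κ - 1) * T d i)) :
    320 * nrm y1 y2 * Real.exp (-((P.κ - 1) * T d i)) ≤ 1 / 2 := by
  rw [Real.exp_neg]
  have hE := Real.exp_pos ((P.κ - 1) * T d i)
  generalize Real.exp ((P.κ - 1) * T d i) = E at *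
  rw [← div_eq_mul_inv, div_le_iff₀ hE]
  linarith

/-- lower bound for the linear form from the next normal vector -/
lemma L_bound {P : Par} (d : Data P) (i : ℕ) (y0 y1 y2 : ℤ)
    (hz : zy d i y0 y1 y2 = 0)
    (hX : 640 * nrm y1 y2 ≤ Real.exp ((P.κ - 1) * T d (i + 1))) :
    |((d.v0 i * y0 + d.v1 i * y1 + d.v2 i * y2 : ℤ) : ℝ)| ≤
      32 * Real.exp (P.κ * T d i) * |d.L y0 y1 y2| := by
  obtain ⟨hI, hR⟩ := And.intro (d.inv i) (d.rel i)
  obtain ⟨a, ha⟩ : ∃ a : ℤ, a = d.v0 i * y0 + d.v1 i * y1 + d.v2 i * y2 := ⟨_, rfl⟩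
  rw [← ha]
  by_cases ha0 : a = 0
  · rw [ha0]
    simp only [Int.cast_zero, abs_zero]
    positivity
  have e : zy d (i + 1) y0 y1 y2 = Nat.fib (d.k i + 1) * a := by
    rw [zy, hR.z0, hR.z1, hR.z2, ha]
    rw [zy] at hz
    linear_combination (Nat.fib (d.k i) : ℤ) * hz
  have h1 := z_est d (i + 1) y0 y1 y2
  rw [e] at h1
  have h2 := half_of d (i + 1) y1 y2 hX
  have hD1 : (0:ℝ) < (d.S (i+1)).z0 := by exact_mod_cast (d.inv (i+1)).zl
  have hDu : ((d.S (i+1)).z0 : ℝ) ≤ 16 * Real.exp ((P.γ + P.α) * T d i) := hR.Du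
  have hnl : Real.exp ((P.γ + P.α - P.κ) * T d i) ≤ (Nat.fib (d.k i + 1) : ℝ) := hR.nl
  have hn1 : (1:ℝ) ≤ (Nat.fib (d.k i + 1) : ℝ) := by
    have : 0 < Nat.fib (d.k i + 1) := Nat.fib_pos.mpr (Nat.succ_pos _)
    exact_mod_cast this
  have ha1 : (1:ℝ) ≤ |(a:ℝ)| := by
    have : 1 ≤ |a| := Int.one_le_abs ha0
    exact_mod_cast this
  have h3 : (Nat.fib (d.k i + 1) : ℝ) * |(a:ℝ)| - (d.S (i+1)).z0 * |d.L y0 y1 y2| ≤ 1/2 := by
    have h4 := abs_sub_abs_le_abs_sub (((Nat.fib (d.k i + 1) * a : ℤ)) : ℝ)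
      ((d.S (i+1)).z0 * d.L y0 y1 y2)
    rw [abs_mul, abs_of_pos hD1] at h4
    push_cast at h4
    rw [abs_mul, abs_of_nonneg (by positivity : (0:ℝ) ≤ (Nat.fib (d.k i + 1) : ℝ))] at h4
    push_cast at h1
    linarith
  have hM : 0 ≤ |d.L y0 y1 y2| := abs_nonneg _
  have hexp : Real.exp ((P.γ + P.α) * T d i) =
      Real.exp ((P.γ + P.α - P.κ) * T d i) * Real.exp (P.κ * T d i) := by
    rw [← Real.exp_add]; congr 1; ring
  rw [hexp] at hDu
  have hE1 := Real.exp_pos ((P.γ + P.α - P.κ) * T d i)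
  have hE2 := Real.exp_pos (P.κ * T d i)
  generalize Real.exp ((P.γ + P.α - P.κ) * T d i) = E1 at *
  generalize Real.exp (P.κ * T d i) = E2 at *
  generalize |d.L y0 y1 y2| = M at *
  generalize |(a:ℝ)| = α at *
  generalize ((d.S (i+1)).z0 : ℝ) = D at *
  generalize (Nat.fib (d.k i + 1) : ℝ) = n at *
  have h5 : n * α ≤ 2 * (D * M) := by nlinarith
  have h6 : E1 * α ≤ n * α := mul_le_mul_of_nonneg_right hnl (by linarith)
  have h7 : D * M ≤ 16 * (E1 * E2) * M := mul_le_mul_of_nonneg_right hDu hM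
  have h8 : E1 * α ≤ E1 * (32 * E2 * M) := by
    calc E1 * α ≤ 2 * (16 * (E1 * E2) * M) := by linarith
      _ = E1 * (32 * E2 * M) := by ring
  exact le_of_mul_le_mul_left h8 hE1

/-- the strip is impossible for small coefficients -/
lemma strip (a b u w : ℤ) (hc : IsCoprime u w) (ha : a ≠ 0) (hb : b ≠ 0)
    (h : 2 * |((a : ℝ)) * u + b * w| ≤ 1) : |w| ≤ |a| ∧ |u| ≤ |b| := by
  have h0 : a * u + b * w = 0 := by
    by_contra h1
    have h2 : 1 ≤ |a * u + b * w| := Int.one_le_abs h1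
    have h3 : (1 : ℝ) ≤ |((a * u + b * w : ℤ) : ℝ)| := by exact_mod_cast h2
    push_cast at h3
    linarith
  constructor
  · have h1 : w ∣ a * u := ⟨-b, by linear_combination h0⟩
    have h2 : w ∣ a := hc.symm.dvd_of_dvd_mul_right h1
    have h3 := (abs_dvd_abs w a).mpr h2
    exact Int.le_of_dvd (abs_pos.mpr ha) h3
  · have h1 : u ∣ b * w := ⟨-a, by linear_combination h0⟩
    have h2 : u ∣ b := hc.dvd_of_dvd_mul_right h1
    have h3 := (abs_dvd_abs u b).mpr h2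
    exact Int.le_of_dvd (abs_pos.mpr hb) h3

end P13

open P13

theorem key {P : Par} (d : Data P) (ρ s : ℝ) (h : Ineq P ρ s) :
    ∃ δ : ℝ, 0 < δ ∧ ∃ i0 : ℕ, ∀ i : ℕ, i0 ≤ i → ∀ y0 y1 y2 : ℤ, Dom ρ y1 y2 →
      Real.exp ((P.κ - 1) * (P.γ ^ i * d.t)) ≤ 640 * nrm y1 y2 →
      640 * nrm y1 y2 < Real.exp ((P.κ - 1) * (P.γ ^ (i + 1) * d.t)) →
      Real.exp (δ * (P.γ ^ i * d.t)) ≤ nrm y1 y2 ^ s * |d.L y0 y1 y2| := by
  obtain ⟨δ1, hδ1, t1, H1⟩ := Pool.Agent.Helper73.TH.case1 P ρ s h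
  obtain ⟨δ2, hδ2, t2, H2⟩ := Pool.Agent.Helper73.TH.case2a P ρ s h
  obtain ⟨δ3, hδ3, t3, H3⟩ := Pool.Agent.Helper73.TH.case2b P ρ s h
  obtain ⟨i0, hi0⟩ := T_unbounded d (max t1 (max t2 t3))
  refine ⟨min δ1 (min δ2 δ3), lt_min hδ1 (lt_min hδ2 hδ3), i0, ?_⟩
  intro i hi y0 y1 y2 hdom hXl hXu
  rw [T_def] at hXl hXu ⊢
  have hTi : max t1 (max t2 t3) ≤ T d i := (hi0.le).trans (T_mono d hi)
  have hT1 : t1 ≤ T d i := (le_max_left _ _).trans hTi
  have hT2 : t2 ≤ T d i := (le_max_left _ _).trans ((le_max_right _ _).trans hTi)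
  have hT3 : t3 ≤ T d i := (le_max_right _ _).trans ((le_max_right _ _).trans hTi)
  have hTp := T_pos d i
  have hred : ∀ δ : ℝ, min δ1 (min δ2 δ3) ≤ δ → ∀ M : ℝ, Real.exp (δ * T d i) ≤ M →
      Real.exp (min δ1 (min δ2 δ3) * T d i) ≤ M := by
    intro δ hδ M hM
    refine le_trans (Real.exp_le_exp.mpr ?_) hM
    exact mul_le_mul_of_nonneg_right hδ hTp.le
  obtain ⟨hI, hR⟩ := And.intro (d.inv i) (d.rel i)
  obtain ⟨hI', hR'⟩ := And.intro (d.inv (i+1)) (d.rel (i+1))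
  rw [T_def] at hI hR hI' hR'
  have hn0 := nrm_nonneg y1 y2
  have hXu2 : 640 * nrm y1 y2 ≤ Real.exp ((P.κ - 1) * T d (i + 1 + 1)) := by
    refine hXu.le.trans (Real.exp_le_exp.mpr ?_)
    exact mul_le_mul_of_nonneg_left (T_le_succ d (i + 1)) (by have := κ1 P; linarith)
  have hXu3 : 640 * nrm y1 y2 ≤ Real.exp ((P.κ - 1) * T d (i + 1 + 1 + 1)) := by
    refine hXu2.trans (Real.exp_le_exp.mpr ?_)
    exact mul_le_mul_of_nonneg_left (T_le_succ d (i + 1 + 1)) (by have := κ1 P; linarith)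
  by_cases hj' : zy d (i + 1) y0 y1 y2 = 0
  · -- Case 2
    set S := d.S (i+1) with hS
    obtain ⟨a, ha⟩ : ∃ a : ℤ, a = (S.b1 * S.c2 - S.b2 * S.c1) * y0 +
      (S.b2 * S.c0 - S.b0 * S.c2) * y1 + (S.b0 * S.c1 - S.b1 * S.c0) * y2 := ⟨_, rfl⟩
    obtain ⟨b, hb⟩ : ∃ b : ℤ, b = (S.c1 * S.a2 - S.c2 * S.a1) * y0 +
      (S.c2 * S.a0 - S.c0 * S.a2) * y1 + (S.c0 * S.a1 - S.c1 * S.a0) * y2 := ⟨_, rfl⟩
    have hdet : S.dt = 1 := hI'.det
    have hdet2 : (S.a1 * S.b2 - S.a2 * S.b1) * S.c0 + (S.a2 * S.b0 - S.a0 * S.b2) * S.c1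
      + (S.a0 * S.b1 - S.a1 * S.b0) * S.c2 = 1 := hdet
    have hzy : (S.a1 * S.b2 - S.a2 * S.b1) * y0 + (S.a2 * S.b0 - S.a0 * S.b2) * y1
      + (S.a0 * S.b1 - S.a1 * S.b0) * y2 = 0 := hj'
    have hy0 : y0 = a * S.a0 + b * S.b0 := by
      rw [ha, hb]
      linear_combination (-y0) * hdet2 + S.c0 * hzy
    have hy1 : y1 = a * S.a1 + b * S.b1 := by
      rw [ha, hb]
      linear_combination (-y1) * hdet2 + S.c1 * hzy
    have hy2 : y2 = a * S.a2 + b * S.b2 := by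
      rw [ha, hb]
      linear_combination (-y2) * hdet2 + S.c2 * hzy
    have hva : d.v0 (i+1) * y0 + d.v1 (i+1) * y1 + d.v2 (i+1) * y2 = a := by
      have e1 := hR'.va
      have e2 := hR'.vb
      rw [hy0, hy1, hy2]
      linear_combination a * e1 + b * e2
    have hLb := L_bound d (i+1) y0 y1 y2 hj' hXu2
    rw [hva] at hLb
    by_cases ha0 : a = 0
    · -- y is a multiple of the second vector
      have hb0 : b ≠ 0 := by
        intro hb0
        rw [ha0, hb0] at hy1 hy2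
        have h0 : nrm y1 y2 = 0 := by rw [nrm, hy1, hy2]; simp
        rw [h0] at hXl
        have := Real.exp_pos ((P.κ - 1) * T d i)
        linarith
      rw [ha0] at hy0 hy1 hy2
      simp only [zero_mul, zero_add] at hy0 hy1 hy2
      have hz2 : zy d (i+1+1) y0 y1 y2 = 0 := by
        have e0 := hR'.z0
        have e1 := hR'.z1
        have e2 := hR'.z2
        rw [zy, e0, e1, e2]
        have e3 : d.v0 (i+1) * y0 + d.v1 (i+1) * y1 + d.v2 (i+1) * y2 = 0 := by rw [hva, ha0]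
        rw [zy] at hj'
        linear_combination (Nat.fib (d.k (i+1) + 1) : ℤ) * e3 + (Nat.fib (d.k (i+1)) : ℤ) * hj'
      have hLb2 := L_bound d (i+1+1) y0 y1 y2 hz2 hXu3
      have hR2 := d.rel (i+1+1)
      have hvb : d.v0 (i+1+1) * y0 + d.v1 (i+1+1) * y1 + d.v2 (i+1+1) * y2 = b := by
        have e1 := hR2.va
        have f0 := hR'.a0
        have f1 := hR'.a1
        have f2 := hR'.a2
        rw [f0, f1, f2] at e1
        rw [hy0, hy1, hy2]
        linear_combination b * e1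
      rw [hvb, T_succ d (i + 1)] at hLb2
      have hy1R : (y1:ℝ) = b * S.b1 := by rw [hy1]; push_cast; ring
      have hy2R : (y2:ℝ) = b * S.b2 := by rw [hy2]; push_cast; ring
      have hfin := H3 (T d (i + 1)) (hT3.trans (T_le_succ d i)) b S.b1 S.b2
        (d.L y0 y1 y2) (nrm y1 y2) hb0 hI'.b1l hI'.b1u hI'.b2l hLb2 (by
          rw [← hy2R]; exact le_max_right _ _) (by
          rw [← hy1R, ← hy2R]; exact hdom)
      refine hred δ3 ((min_le_right _ _).trans (min_le_right _ _)) _ (le_trans ?_ hfin)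
      exact Real.exp_le_exp.mpr (mul_le_mul_of_nonneg_left (T_le_succ d i) hδ3.le)
    · have hA1 : S.a1 = (d.S i).b1 := hR.a1
      have hA2 : S.a2 = (d.S i).b2 := hR.a2
      have hu1l : Real.exp (P.α * T d i) ≤ S.a1 := by rw [hA1]; exact hI.b1l
      have hu1u : (S.a1 : ℝ) ≤ 2 * Real.exp (P.α * T d i) := by rw [hA1]; exact hI.b1u
      have hu2l : Real.exp (T d i) ≤ 2 * S.a2 := by rw [hA2]; exact hI.b2l
      have hu2u : (S.a2 : ℝ) ≤ 20 * Real.exp (T d i) := by rw [hA2]; exact hI.b2u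
      rw [T_succ d i] at hLb
      by_cases hb0 : b = 0
      · rw [hb0] at hy1 hy2
        simp only [zero_mul, add_zero] at hy1 hy2
        have hy1R : (y1:ℝ) = a * S.a1 := by rw [hy1]; push_cast; ring
        have hy2R : (y2:ℝ) = a * S.a2 := by rw [hy2]; push_cast; ring
        have hfin := H3 (T d i) hT3 a S.a1 S.a2
          (d.L y0 y1 y2) (nrm y1 y2) ha0 hu1l hu1u hu2l hLb (by
            rw [← hy2R]; exact le_max_right _ _) (by
            rw [← hy1R, ← hy2R]; exact hdom)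
        exact hred δ3 ((min_le_right _ _).trans (min_le_right _ _)) _ hfin
      · have hI'' := hI'
        rw [T_succ d i] at hI''
        have hy1R : (y1:ℝ) = a * S.a1 + b * S.b1 := by rw [hy1]; push_cast; ring
        have hy2R : (y2:ℝ) = a * S.a2 + b * S.b2 := by rw [hy2]; push_cast; ring
        have hfin := H2 (T d i) hT2 a b S.a1 S.a2 S.b1 S.b2
          (d.L y0 y1 y2) (nrm y1 y2) ha0 hb0 hu1l hu1u hu2l hu2u hI''.b1l hI''.b1u hI''.b2l
          hI''.b2u hLb (by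
            rw [← hy1R]; exact le_max_left _ _) (by
            rw [← hy2R]; exact le_max_right _ _) (by
            intro hs
            obtain ⟨s1, s2⟩ := strip a b S.a1 S.b1 hI'.cop ha0 hb0 hs
            have s1' : |(S.b1 : ℝ)| ≤ |(a : ℝ)| := by exact_mod_cast s1
            have s2' : |(S.a1 : ℝ)| ≤ |(b : ℝ)| := by exact_mod_cast s2
            exact ⟨(hI''.b1l.trans (le_abs_self _)).trans s1',
              (hu1l.trans (le_abs_self _)).trans s2'⟩) (by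
            rw [← hy1R, ← hy2R]; exact hdom)
        exact hred δ2 ((min_le_right _ _).trans (min_le_left _ _)) _ hfin
  · -- Case 1
    have hest := z_est d i y0 y1 y2
    have hest' := z_est d (i+1) y0 y1 y2
    have hhalf := half_of d (i + 1) y1 y2 hXu.le
    have hD0 : (0:ℝ) < (d.S i).z0 := by exact_mod_cast hI.zl
    have hD1 : (0:ℝ) < (d.S (i+1)).z0 := by exact_mod_cast hI'.zl
    refine hred δ1 (min_le_left _ _) _ ?_
    refine H1 (T d i) hT1 (d.S i).z0 (d.S (i+1)).z0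
      (Nat.fib (d.k i + 1)) (nrm y1 y2) (d.L y0 y1 y2)
      (zy d i y0 y1 y2) (zy d (i+1) y0 y1 y2) hD0 hI.zu hD1 hR.Du hR.nl
      hXl hest (hest'.trans hhalf) hj' ?_
    have hrel : zy d (i+1) y0 y1 y2 =
        Nat.fib (d.k i + 1) * (d.v0 i * y0 + d.v1 i * y1 + d.v2 i * y2) +
        Nat.fib (d.k i) * zy d i y0 y1 y2 := by
      rw [zy, zy, hR.z0, hR.z1, hR.z2]; ring
    rw [hrel] at hj' ⊢
    generalize zy d i y0 y1 y2 = j at *
    obtain ⟨hh, hhe⟩ : ∃ hh : ℤ, hh = d.v0 i * y0 + d.v1 i * y1 + d.v2 i * y2 := ⟨_, rfl⟩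
    rw [← hhe] at hj' ⊢
    by_cases hj0 : j = 0
    · left
      rw [hj0] at hj' ⊢
      simp only [mul_zero, add_zero] at hj' ⊢
      have hh0 : hh ≠ 0 := fun h0 => hj' (by rw [h0, mul_zero])
      have : 1 ≤ |hh| := Int.one_le_abs hh0
      have hR1 : (1:ℝ) ≤ |(hh:ℝ)| := by exact_mod_cast this
      push_cast
      rw [abs_mul, abs_of_nonneg (by positivity : (0:ℝ) ≤ (Nat.fib (d.k i + 1) : ℝ))]
      exact le_mul_of_one_le_right (by positivity) hR1
    · right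
      have := Pool.Agent.Helper8.Thurn.fib_lemma (d.k i) hh j hj0 hj'
      have hcast : (((Nat.fib (d.k i + 1) : ℤ)) : ℝ) ≤
          ((6 * (|(Nat.fib (d.k i + 1) : ℤ) * hh + Nat.fib (d.k i) * j| * |j|) : ℤ) : ℝ) := by
        exact_mod_cast this
      simpa using hcast

theorem not_admits_of_par (P : Par) (ρ s : ℝ) (h : Ineq P ρ s) : ¬ Admits ρ 0 s := by
  intro hadm
  obtain ⟨d⟩ := Pool.Agent.Helper73.TH.exists_data P
  have h12 : (1 / 2 : ℝ) ≠ 0 := by norm_num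
  obtain ⟨c, hc, hinf⟩ := hadm d.θ1 d.θ2 (Pool.Agent.Helper73.TH.linIndep d)
    (LinearEquiv.smulOfNeZero ℝ (ℝ × ℝ) (1 / 2 : ℝ) h12)
  obtain ⟨δ, hδ, i0, hkey⟩ := key d ρ s h
  apply hinf
  have hκ := κ1 P
  obtain ⟨I1, hI1⟩ := T_unbounded d (c / δ)
  set I := max i0 I1 with hIdef
  have hIc : ∀ i, I ≤ i → c < Real.exp (δ * T d i) := by
    intro i hi
    have h1 : c / δ < T d i := hI1.trans_le (T_mono d ((le_max_right _ _).trans hi))
    rw [div_lt_iff₀ hδ] at h1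
    have h2 := Real.add_one_le_exp (δ * T d i)
    linarith
  have hi0I : i0 ≤ I := le_max_left _ _
  clear_value I
  have hmonoE : ∀ {i j : ℕ}, i ≤ j →
      Real.exp ((P.κ - 1) * T d i) ≤ Real.exp ((P.κ - 1) * T d j) := by
    intro i j hij
    exact Real.exp_le_exp.mpr (mul_le_mul_of_nonneg_left (T_mono d hij) (by linarith))
  set B : ℝ := Real.exp ((P.κ - 1) * T d I) with hB
  apply Set.Finite.subset (Set.Finite.prod (Set.finite_Icc (-⌈B⌉) ⌈B⌉) (Set.finite_Icc (-⌈B⌉) ⌈B⌉))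
  rintro ⟨x1, x2⟩ ⟨hdom, hx⟩
  simp only at hdom hx
  have hdom' : Dom ρ x1 x2 := by
    obtain ⟨⟨p1, p2⟩, hp, hpe⟩ := hdom
    simp only [LinearEquiv.smulOfNeZero_apply, Prod.smul_mk, smul_eq_mul, Prod.mk.injEq] at hpe
    obtain ⟨e1, e2⟩ := hpe
    have a1 : 2 * |(x1 : ℝ)| = |p1| := by
      rw [← e1, abs_mul, abs_of_pos (by norm_num : (0:ℝ) < 1 / 2)]; ring
    have a2 : 2 * |(x2 : ℝ)| = |p2| := by
      rw [← e2, abs_mul, abs_of_pos (by norm_num : (0:ℝ) < 1 / 2)]; ring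
    rw [Dom, a1, a2]
    rcases hp with hp | hp
    · left
      exact hp
    · right
      have hp' : |p1| ≤ |p2| ^ (0 : ℝ) := hp
      rwa [Real.rpow_zero] at hp'
  have hX : 640 * nrm x1 x2 < B := by
    by_contra hcon
    push Not at hcon
    have hBpos : 0 < B := Real.exp_pos _
    have hXpos : 0 < nrm x1 x2 := by linarith
    -- find the index
    obtain ⟨J, hJ⟩ : ∃ J, 640 * nrm x1 x2 < Real.exp ((P.κ - 1) * T d J) := by
      obtain ⟨J, hJ⟩ := T_unbounded d (640 * nrm x1 x2 / (P.κ - 1))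
      refine ⟨J, ?_⟩
      rw [div_lt_iff₀ (by linarith)] at hJ
      have h2 := Real.add_one_le_exp ((P.κ - 1) * T d J)
      linarith
    classical
    have hex : ∃ j, 640 * nrm x1 x2 < Real.exp ((P.κ - 1) * T d j) := ⟨J, hJ⟩
    set m := Nat.find hex with hm
    have hm1 : 640 * nrm x1 x2 < Real.exp ((P.κ - 1) * T d m) := Nat.find_spec hex
    have hmI : I < m := by
      by_contra hle
      push Not at hle
      have := hmonoE hle
      linarith
    obtain ⟨i, hi⟩ : ∃ i, m = i + 1 := ⟨m - 1, by omega⟩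
    have hmi : Real.exp ((P.κ - 1) * T d i) ≤ 640 * nrm x1 x2 := by
      have := Nat.find_min hex (m := i) (by omega)
      push Not at this
      exact this
    rw [hi] at hm1
    have hIi : I ≤ i := by omega
    have hk := hkey i (hi0I.trans hIi) (-round (d.θ1 * x1 + d.θ2 * x2)) x1 x2 hdom' hmi hm1
    have hLeq : |d.L (-round (d.θ1 * x1 + d.θ2 * x2)) x1 x2| =
        distInt (d.θ1 * x1 + d.θ2 * x2) := by
      rw [Data.L, distInt]
      congr 1
      push_cast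
      ring
    rw [hLeq] at hk
    have hx' : distInt (d.θ1 * x1 + d.θ2 * x2) ≤ c * (nrm x1 x2) ^ (-s) := hx
    have hsp : 0 < (nrm x1 x2) ^ s := Real.rpow_pos_of_pos hXpos s
    have hx2 : (nrm x1 x2) ^ s * distInt (d.θ1 * x1 + d.θ2 * x2) ≤ c := by
      have := mul_le_mul_of_nonneg_left hx' hsp.le
      calc _ ≤ _ := this
        _ = c := by
          rw [Real.rpow_neg hXpos.le]
          field_simp
    have h3 := hIc i hIi
    rw [T_def] at hk
    linarith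
  have hBc : B ≤ ⌈B⌉ := Int.le_ceil B
  have hn1 : |(x1:ℝ)| ≤ nrm x1 x2 := le_max_left _ _
  have hn2 : |(x2:ℝ)| ≤ nrm x1 x2 := le_max_right _ _
  have hn0 : 0 ≤ nrm x1 x2 := le_trans (abs_nonneg _) hn1
  have hx1 : |(x1:ℝ)| ≤ (⌈B⌉ : ℝ) := by linarith
  have hx2 : |(x2:ℝ)| ≤ (⌈B⌉ : ℝ) := by linarith
  have hx1' : |x1| ≤ ⌈B⌉ := by exact_mod_cast hx1
  have hx2' : |x2| ≤ ⌈B⌉ := by exact_mod_cast hx2
  rw [abs_le] at hx1' hx2'
  exact ⟨⟨hx1'.1, hx1'.2⟩, ⟨hx2'.1, hx2'.2⟩⟩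

end Pool.Agent.Helper73.TH
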