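import Mathlib
import Pool.Agent.Helper73.TH.Defs

set_option autoImplicit false

/-!
Project TH (MP_594f4b_nt, Q2): the point of the curve is the largest real root of a sextic.
-/

namespace Pool.Agent.Helper73.TH

/-- the sextic -/
def sextic (ρ x : ℝ) : ℝ :=
  ρ ^ 2 * x ^ 6 - 2 * ρ * (ρ - 1) * x ^ 5 - (3 * ρ ^ 2 + 2 * ρ - 1) * x ^ 4 - (ρ + 1) * x ^ 3
    + (9 * ρ ^ 2 - 7 * ρ + 2) * x ^ 2 + (4 * ρ ^ 2 + ρ - 1) * x + ρ

/-- elimination -/
lemma sextic_elim (ρ x b : ℝ) (hb : (x - 1) * ((2 * x + 1) * ρ - x) * b =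
    (x + 1) * (ρ * (x ^ 3 - 2 * x - 1) - (ρ - 1) * x ^ 2)) :
    x * (x + 1) ^ 2 * sextic ρ x = (x - 1) * ((2 * x + 1) * ρ - x) ^ 2 *
      ((x - 1) * b * (x * b + 1) - (x + 1) * (x ^ 2 - x - 1)) := by
  have h1 : x * (x + 1) ^ 2 * sextic ρ x =
      x * ((x + 1) * (ρ * (x ^ 3 - 2 * x - 1) - (ρ - 1) * x ^ 2)) ^ 2
      + ((2 * x + 1) * ρ - x) * (x - 1) * ((x + 1) * (ρ * (x ^ 3 - 2 * x - 1) - (ρ - 1) * x ^ 2))
      - (x - 1) * (x + 1) * (x ^ 2 - x - 1) * ((2 * x + 1) * ρ - x) ^ 2 := by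
    unfold sextic; ring
  rw [h1, ← hb]
  ring

/-- the linear relation for `b` -/
lemma curve_lin {ρ s β : ℝ}
    (e1 : (s - 1) * β * (s * β + 1) = (s + 1) * (s ^ 2 - s - 1))
    (e2 : (s - 1) * β * (ρ * (1 + s) * β - (ρ - 1)) = (ρ - 1) * s * (1 + s)) :
    (s - 1) * ((2 * s + 1) * ρ - s) * β =
      (s + 1) * (ρ * (s ^ 3 - 2 * s - 1) - (ρ - 1) * s ^ 2) := by
  linear_combination ρ * (1 + s) * e1 - s * e2

theorem curve_root {ρ s β : ℝ} (h : Curve ρ s β) : sextic ρ s = 0 := by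
  have hs := h.hs1
  have h1 := sextic_elim ρ s β (curve_lin h.e1 h.e2)
  rw [h.e1, sub_self, mul_zero] at h1
  rcases mul_eq_zero.mp h1 with h2 | h2
  · exfalso
    have : 0 < s * (s + 1) ^ 2 := by positivity
    linarith
  · exact h2

theorem curve_greatest {ρ s β : ℝ} (h : Curve ρ s β) (hρ : 1 < ρ) (x : ℝ)
    (hx : sextic ρ x = 0) : x ≤ s := by
  by_contra hcon
  push Not at hcon
  have hs := h.hs1
  have hβ := h.hβ0
  have hx1 : 1 < x := by linarith
  have hD : 0 < (2 * x + 1) * ρ - x := by nlinarith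
  have hx1' : 0 < x - 1 := by linarith
  -- the value of `b`
  obtain ⟨b, hb⟩ : ∃ b : ℝ, (x - 1) * ((2 * x + 1) * ρ - x) * b =
      (x + 1) * (ρ * (x ^ 3 - 2 * x - 1) - (ρ - 1) * x ^ 2) := by
    refine ⟨(x + 1) * (ρ * (x ^ 3 - 2 * x - 1) - (ρ - 1) * x ^ 2) /
      ((x - 1) * ((2 * x + 1) * ρ - x)), ?_⟩
    rw [mul_div_cancel₀]
    exact (mul_pos hx1' hD).ne'
  have h1 := sextic_elim ρ x b hb
  rw [hx, mul_zero] at h1
  have f1 : (x - 1) * b * (x * b + 1) = (x + 1) * (x ^ 2 - x - 1) := by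
    have : 0 < (x - 1) * ((2 * x + 1) * ρ - x) ^ 2 := by positivity
    rcases mul_eq_zero.mp h1.symm with h2 | h2
    · exact absurd h2 this.ne'
    · linarith
  have f2 : (x - 1) * b * (ρ * (1 + x) * b - (ρ - 1)) = (ρ - 1) * x * (1 + x) := by
    have e : x * ((x - 1) * b * (ρ * (1 + x) * b - (ρ - 1)) - (ρ - 1) * x * (1 + x)) = 0 := by
      linear_combination ρ * (1 + x) * f1 - hb
    rcases mul_eq_zero.mp e with h2 | h2
    · linarith
    · linarith
  have hs1' : 0 < s - 1 := by linarith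
  have hβ1 := h.hβ1
  -- cleared forms of the second equation: `(ρ-1) (x/(x-1) + b/(x+1)) = ρ b^2`
  have g2 : (ρ - 1) * (x / (x - 1) + b / (x + 1)) = ρ * b ^ 2 := by
    have : x + 1 ≠ 0 := by linarith
    field_simp
    linear_combination -f2
  have g2' : (ρ - 1) * (s / (s - 1) + β / (s + 1)) = ρ * β ^ 2 := by
    have h3 : s + 1 ≠ 0 := by linarith
    have h4 := h.e2
    field_simp
    linear_combination -h4
  have k1 : x / (x - 1) < s / (s - 1) := by
    rw [div_lt_div_iff₀ hx1' hs1']; nlinarith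
  have k0 : 0 < x / (x - 1) := by positivity
  -- `x β² + β < x b² + b`
  have hbb : x * β ^ 2 + β < x * b ^ 2 + b := by
    have h3 : (x - 1) * (s - 1) * (x * β ^ 2 + β) < (x - 1) * (s - 1) * (x * b ^ 2 + b) := by
      have e : (x - 1) * (s - 1) * (x * b ^ 2 + b) - (x - 1) * (s - 1) * (x * β ^ 2 + β) =
          (x - s) * ((x - 1) * (s - 1) * (x + s + 1 - β ^ 2) + 2) := by
        linear_combination (s - 1) * f1 - (x - 1) * h.e1
      have h4 : β ^ 2 ≤ 1 := by nlinarith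
      have h5 : 0 < (x - s) * ((x - 1) * (s - 1) * (x + s + 1 - β ^ 2) + 2) := by
        have h6 : 0 < x - s := by linarith
        have h7 : 0 < x + s + 1 - β ^ 2 := by linarith
        positivity
      linarith
    exact lt_of_mul_lt_mul_left h3 (by positivity)
  have hfac : 0 < (b - β) * (x * (b + β) + 1) := by
    have : (b - β) * (x * (b + β) + 1) = (x * b ^ 2 + b) - (x * β ^ 2 + β) := by ring
    rw [this]; linarith
  have hb2 : β < b ∨ b < -β := by
    rcases pos_and_pos_or_neg_and_neg_of_mul_pos hfac with ⟨h3, _⟩ | ⟨_, h4⟩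
    · left; linarith
    · right
      by_contra hc
      push Not at hc
      have : 0 ≤ x * (b + β) := mul_nonneg (by linarith) (by linarith)
      linarith
  have hsq : β ^ 2 < b ^ 2 := by
    rcases hb2 with h3 | h3
    · exact pow_lt_pow_left₀ h3 hβ.le two_ne_zero
    · have h4 : β < -b := by linarith
      have h5 := pow_lt_pow_left₀ h4 hβ.le two_ne_zero
      rwa [neg_sq] at h5
  have t1 : β ^ 2 * (x / (x - 1)) < b ^ 2 * (s / (s - 1)) := by
    have : 0 < β ^ 2 := by positivity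
    calc β ^ 2 * (x / (x - 1)) < β ^ 2 * (s / (s - 1)) := by gcongr
      _ ≤ b ^ 2 * (s / (s - 1)) := by gcongr
  have t2 : β ^ 2 * (b / (x + 1)) ≤ b ^ 2 * (β / (s + 1)) := by
    rcases hb2 with h3 | h3
    · have hbpos : 0 < b := by linarith
      rw [mul_div_assoc', mul_div_assoc', div_le_div_iff₀ (by linarith) (by linarith)]
      have h4 : β * (s + 1) ≤ b * (x + 1) := mul_le_mul h3.le (by linarith) (by linarith) hbpos.le
      have h5 : 0 < β * b := by positivity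
      calc β ^ 2 * b * (s + 1) = β * b * (β * (s + 1)) := by ring
        _ ≤ β * b * (b * (x + 1)) := by gcongr
        _ = b ^ 2 * β * (x + 1) := by ring
    · have h4 : b / (x + 1) ≤ 0 := div_nonpos_of_nonpos_of_nonneg (by linarith) (by linarith)
      have h5 : 0 ≤ b ^ 2 * (β / (s + 1)) := by positivity
      have h6 : β ^ 2 * (b / (x + 1)) ≤ 0 := mul_nonpos_of_nonneg_of_nonpos (by positivity) h4
      linarith
  have t3 : β ^ 2 * (x / (x - 1) + b / (x + 1)) < b ^ 2 * (s / (s - 1) + β / (s + 1)) := by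
    rw [mul_add, mul_add]; linarith
  -- contradiction
  have hρ1 : 0 < ρ - 1 := by linarith
  have t4 : (ρ - 1) * (β ^ 2 * (x / (x - 1) + b / (x + 1))) <
      (ρ - 1) * (b ^ 2 * (s / (s - 1) + β / (s + 1))) := mul_lt_mul_of_pos_left t3 hρ1
  have e1 : (ρ - 1) * (β ^ 2 * (x / (x - 1) + b / (x + 1))) = β ^ 2 * (ρ * b ^ 2) := by
    rw [← g2]; ring
  have e2 : (ρ - 1) * (b ^ 2 * (s / (s - 1) + β / (s + 1))) = b ^ 2 * (ρ * β ^ 2) := by
    rw [← g2']; ring
  rw [e1, e2] at t4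
  linarith

end Pool.Agent.Helper73.TH
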