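import Mathlib
import Pool.Agent.Helper73.TH.LFinal
import Pool.Agent.Helper73.TH.Sextic
import Pool.Agent.Helper73.TH.P13
import Pool.Agent.Helper88.TH.P3
import Pool.Agent.Helper67.TH.P4
import Pool.Agent.Helper85.TH.P5

set_option autoImplicit false

/-!
Project TH (MP_594f4b_nt, Q2): final assembly.
-/

namespace Pool.Agent.Helper73.TH

/-- monotonicity in the exponent -/
lemma Admits.mono {ρ s t : ℝ} (h : Admits ρ 0 t) (hst : s ≤ t) : Admits ρ 0 s := by
  intro θ1 θ2 hlin L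
  obtain ⟨c, hc, hinf⟩ := h θ1 θ2 hlin L
  refine ⟨c, hc, ?_⟩
  -- remove the origin
  have h1 := hinf.diff (Set.finite_singleton ((0, 0) : ℤ × ℤ))
  refine h1.mono ?_
  rintro x ⟨⟨hx1, hx2⟩, hx0⟩
  refine ⟨hx1, hx2.trans ?_⟩
  apply mul_le_mul_of_nonneg_left _ hc.le
  apply Real.rpow_le_rpow_of_exponent_le _ (by linarith)
  by_cases h0 : x.1 = 0
  · have h2 : x.2 ≠ 0 := fun h2 => hx0 (Prod.ext h0 h2)
    have : 1 ≤ |x.2| := Int.one_le_abs h2
    exact le_trans (by exact_mod_cast this) (le_max_right _ _)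
  · have : 1 ≤ |x.1| := Int.one_le_abs h0
    exact le_trans (by exact_mod_cast this) (le_max_left _ _)

/-- **Upper bound.** -/
theorem not_admits_of_lt {ρ σ β s : ℝ} (h : Curve ρ σ β) (hρ : 1 < ρ) (hρ2 : ρ ≤ 7 / 4)
    (hs : σ < s) : ¬ Admits ρ 0 s := by
  rcases lt_or_eq_of_le hρ2 with h1 | h1
  · have hβ := curve_beta_lt h h1
    -- `σ < 2`
    have hσ2 : σ < 2 := by
      rcases lt_or_eq_of_le h.hs2 with h2 | h2
      · exact h2
      · exfalso
        have e1 := h.e1
        rw [h2] at e1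
        have hβ0 := h.hβ0
        nlinarith
    intro hadm
    rcases lt_or_ge s 2 with h2 | h2
    · obtain ⟨P, hP⟩ := exists_par h hρ hβ hs h2
      exact not_admits_of_par P ρ s hP hadm
    · have h3 : Admits ρ 0 ((σ + 2) / 2) := hadm.mono (by linarith)
      obtain ⟨P, hP⟩ := exists_par h hρ hβ (s := (σ + 2) / 2) (by linarith) (by linarith)
      exact not_admits_of_par P ρ _ hP h3
  · subst h1
    have := (curve_end h).1
    exact not_admits_of_two_lt _ s (by linarith)

theorem isLUB_of_curve {ρ σ β : ℝ} (h : Curve ρ σ β) (hρ : 1 < ρ) (hρ2 : ρ ≤ 7 / 4) :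
    IsLUB {s : ℝ | 0 < s ∧ Admits ρ 0 s} σ := by
  constructor
  · rintro s ⟨_, hs⟩
    by_contra hcon
    push Not at hcon
    exact not_admits_of_lt h hρ hρ2 hcon hs
  · intro b hb
    by_contra hcon
    push Not at hcon
    have hσ := h.hs1
    obtain ⟨t, ht⟩ : ∃ t : ℝ, t = (max b 1 + σ) / 2 := ⟨_, rfl⟩
    have h1 : b ≤ max b 1 := le_max_left _ _
    have h2 : 1 ≤ max b 1 := le_max_right _ _
    have h3 : max b 1 < σ := max_lt hcon hσ
    have h4 := hb ⟨by linarith, admits_of_lt h hρ (s := t) (by linarith)⟩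
    linarith

end Pool.Agent.Helper73.TH
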